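import Pool.Agent.H11.VP.Defs

/-!
Perfect sets and copies of the Cantor space.
-/

namespace Pool.Agent.H11.VP

open Set Topology

/-- The image of the Cantor space under a continuous injection is perfect. -/
theorem perfect_of_cantor {X : Type} [TopologicalSpace X] [T2Space X] (f : (ℕ → Bool) → X)
    (hc : Continuous f) (hi : Function.Injective f) : Perfect (range f) := by
  refine ⟨(isCompact_range hc).isClosed, ?_⟩
  rw [preperfect_iff_nhds]
  rintro _ ⟨a, rfl⟩ U hU
  have ht : Filter.Tendsto (fun n : ℕ => Function.update a n (!(a n))) Filter.atTop (𝓝 a) := by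
    rw [tendsto_pi_nhds]
    intro i
    refine tendsto_const_nhds.congr' ?_
    filter_upwards [Filter.eventually_gt_atTop i] with n hn
    rw [Function.update_of_ne (Nat.ne_of_lt hn)]
  have h2 := (hc.tendsto a).comp ht
  obtain ⟨n, hn⟩ := (h2.eventually hU).exists
  refine ⟨f (Function.update a n (!(a n))), ⟨hn, mem_range_self _⟩, fun h => ?_⟩
  have := congrFun (hi h) n
  rw [Function.update_self] at this
  simp at this

/-- A nonempty perfect subset of a Polish space contains a copy of the Cantor space. -/
theorem cantor_of_perfect {X : Type} [TopologicalSpace X] [PolishSpace X] {P : Set X}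
    (hP : Perfect P) (hne : P.Nonempty) :
    ∃ f : (ℕ → Bool) → X, range f ⊆ P ∧ Continuous f ∧ Function.Injective f := by
  let _ := TopologicalSpace.upgradeIsCompletelyMetrizable X
  exact hP.exists_nat_bool_injection hne

/-- How to show that there are perfectly many orbits. -/
theorem perfectlyManyOrbits_of_cantor {G X : Type} [TopologicalSpace X] [T2Space X] [Group G]
    [MulAction G X] {B : Set X} (f : (ℕ → Bool) → X) (hc : Continuous f)
    (hi : Function.Injective f) (hB : ∀ a, f a ∈ B)
    (hf : ∀ a b, a ≠ b → ∀ g : G, g • f a ≠ f b) : PerfectlyManyOrbits G B := by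
  refine ⟨range f, perfect_of_cantor f hc hi, range_nonempty f, ?_, ?_⟩
  · rintro _ ⟨a, rfl⟩
    exact hB a
  · rintro _ ⟨a, rfl⟩ _ ⟨b, rfl⟩ hab h
    have hab' : a ≠ b := fun h' => hab (congrArg f h')
    have : f b ∈ MulAction.orbit G (f a) := by
      rw [h]; exact MulAction.mem_orbit_self _
    obtain ⟨g, hg⟩ := this
    exact hf a b hab' g hg

/-- What perfectly many orbits give. -/
theorem cantor_of_perfectlyManyOrbits {G X : Type} [TopologicalSpace X] [PolishSpace X] [Group G]
    [MulAction G X] {B : Set X} (h : PerfectlyManyOrbits G B) :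
    ∃ f : (ℕ → Bool) → X, Continuous f ∧ Function.Injective f ∧ (∀ a, f a ∈ B) ∧
      ∀ a b, a ≠ b → ∀ g : G, g • f a ≠ f b := by
  obtain ⟨P, hP, hne, hPB, hPo⟩ := h
  obtain ⟨f, hfP, hfc, hfi⟩ := cantor_of_perfect hP hne
  refine ⟨f, hfc, hfi, fun a => hPB (hfP (mem_range_self a)), fun a b hab g hg => ?_⟩
  refine hPo (f a) (hfP (mem_range_self a)) (f b) (hfP (mem_range_self b)) (hfi.ne hab) ?_
  rw [← hg]
  exact (MulAction.orbit_smul g (f a)).symm

end Pool.Agent.H11.VP
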