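import Pool.Agent.H11.VP.MycAbs

/-!
A continuous map with uncountable image is injective on a Cantor set.
-/

namespace Pool.Agent.H11.VP

open Set Topology

/-- A continuous map from a Polish space with uncountable image is injective on some copy of the
Cantor space. -/
theorem exists_cantor_image {S Y : Type} [TopologicalSpace S] [PolishSpace S] [TopologicalSpace Y]
    [T2Space Y] (h : S → Y) (hc : Continuous h) (hu : ¬ (range h).Countable) :
    ∃ f : (ℕ → Bool) → S, Continuous f ∧ Function.Injective (h ∘ f) := by
  -- the union of the open sets with countable image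
  let O : Set S := ⋃₀ {V | V ∈ TopologicalSpace.countableBasis S ∧ (h '' V).Countable}
  have hO : IsOpen O :=
    isOpen_sUnion fun V hV => TopologicalSpace.isOpen_of_mem_countableBasis hV.1
  have hOc : (h '' O).Countable := by
    rw [image_sUnion]
    apply Countable.sUnion
    · exact ((TopologicalSpace.countable_countableBasis S).mono fun V hV => hV.1).image _
    · rintro _ ⟨V, hV, rfl⟩
      exact hV.2
  have hOmem : ∀ U : Set S, IsOpen U → (h '' U).Countable → U ⊆ O := by
    intro U hU hUc x hx
    obtain ⟨V, hV, hxV, hVU⟩ :=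
      (TopologicalSpace.isBasis_countableBasis S).exists_subset_of_mem_open hx hU
    exact ⟨V, ⟨hV, hUc.mono (image_mono hVU)⟩, hxV⟩
  have hpol : PolishSpace ↥(Oᶜ) := hO.isClosed_compl.polishSpace
  have hne : (Oᶜ).Nonempty := by
    by_contra hcon
    rw [not_nonempty_iff_eq_empty, compl_empty_iff] at hcon
    rw [hcon, image_univ] at hOc
    exact hu hOc
  have : Nonempty ↥(Oᶜ) := hne.to_subtype
  obtain ⟨f, hf, hfN⟩ := exists_avoiding (K := ↥(Oᶜ)) (fun _ => {p | h p.1.1 = h p.2.1})
    (fun _ => isClosed_eq (hc.comp (continuous_subtype_val.comp continuous_fst))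
      (hc.comp (continuous_subtype_val.comp continuous_snd))) (by
    intro _ x V hV hVne
    by_contra hcon
    push Not at hcon
    obtain ⟨U, hU, rfl⟩ := isOpen_induced_iff.1 hV
    obtain ⟨z, hz⟩ := hVne
    have h1 : (h '' U).Countable := by
      refine (hOc.union (countable_singleton (h x.1))).mono ?_
      rintro _ ⟨y, hy, rfl⟩
      by_cases hyO : y ∈ O
      · exact Or.inl ⟨y, hyO, rfl⟩
      · right
        have h2 := hcon ⟨y, hyO⟩ hy
        exact h2.symm
    exact z.2 (hOmem U hU h1 hz))
  refine ⟨fun a => (f a).1, continuous_subtype_val.comp hf, fun a b hab => ?_⟩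
  by_contra hne
  exact hfN 0 a b hne hab

end Pool.Agent.H11.VP
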