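import Mathlib

/-!
The orbit space of a compact group acting on a Polish space.
-/

namespace Pool.Agent.H11.VP

open Set Topology

namespace QuotPolish

open TopologicalSpace Filter

variable {K X : Type*} [Group K] [TopologicalSpace K] [CompactSpace K]
  [TopologicalSpace X] [MulAction K X] [ContinuousSMul K X]

/-- The orbit of `x` as a nonempty compact set. -/
def orb (K : Type*) {X : Type*} [Group K] [TopologicalSpace K] [CompactSpace K]
    [TopologicalSpace X] [MulAction K X] [ContinuousSMul K X] (x : X) : NonemptyCompacts X :=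
  (⊤ : NonemptyCompacts K).map (fun k => k • x) (by fun_prop)

theorem coe_orb (x : X) : (orb K x : Set X) = MulAction.orbit K x := by
  ext y
  simp [orb, MulAction.orbit]

theorem continuous_orb : Continuous (orb K : X → NonemptyCompacts X) := by
  unfold orb
  exact Continuous.nonemptyCompacts_map' (f := fun _ : X => (⊤ : NonemptyCompacts K))
    (g := fun (x : X) (k : K) => k • x) continuous_const (by
      show Continuous fun p : X × K => p.2 • p.1
      fun_prop)

theorem orb_eq_iff (x y : X) : orb K x = orb K y ↔ MulAction.orbitRel K X x y := by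
  rw [← SetLike.coe_set_eq, coe_orb, coe_orb, MulAction.orbitRel_apply, MulAction.orbit_eq_iff]

/-- The map from the orbit space to the nonempty compact sets. -/
def emb (K X : Type*) [Group K] [TopologicalSpace K] [CompactSpace K]
    [TopologicalSpace X] [MulAction K X] [ContinuousSMul K X] :
    MulAction.orbitRel.Quotient K X → NonemptyCompacts X :=
  Quotient.lift (orb K) (fun x y h => (orb_eq_iff x y).2 h)

theorem isClosedEmbedding_emb [T2Space X] : IsClosedEmbedding (emb K X) := by
  refine IsClosedEmbedding.of_continuous_injective_isClosedMap ?_ ?_ ?_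
  · exact continuous_orb.quotient_lift _
  · rintro ⟨x⟩ ⟨y⟩ h
    exact Quotient.sound ((orb_eq_iff x y).1 h)
  · intro F hF
    set F' : Set X := Quotient.mk (MulAction.orbitRel K X) ⁻¹' F with hF'
    have hF'c : IsClosed F' := hF.preimage continuous_quotient_mk'
    have himg : emb K X '' F = orb K '' F' := by
      ext C
      constructor
      · rintro ⟨⟨x⟩, hx, rfl⟩
        exact ⟨x, hx, rfl⟩
      · rintro ⟨x, hx, rfl⟩
        exact ⟨Quotient.mk _ x, hx, rfl⟩
    rw [himg, ← closure_subset_iff_isClosed]
    intro C hC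
    obtain ⟨c, hc⟩ := C.nonempty
    have key : ∀ U ∈ 𝓝 c, ∀ V ∈ 𝓝 C, ∃ y ∈ U, y ∈ F' ∧ orb K y ∈ V := by
      intro U hU V hV
      have hT : V ∩ {D : NonemptyCompacts X | ((D : Set X) ∩ interior U).Nonempty} ∈ 𝓝 C := by
        refine inter_mem hV ?_
        exact (NonemptyCompacts.isOpen_inter_nonempty_of_isOpen isOpen_interior).mem_nhds
          ⟨c, hc, mem_interior_iff_mem_nhds.2 hU⟩
      obtain ⟨D, ⟨hDV, y, hyD, hyU⟩, x, hx, rfl⟩ := mem_closure_iff_nhds.1 hC _ hT
      rw [coe_orb] at hyD
      have hr : MulAction.orbitRel K X y x := hyD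
      refine ⟨y, interior_subset hyU, ?_, ?_⟩
      · have e : (Quotient.mk (MulAction.orbitRel K X) y) = Quotient.mk _ x := Quotient.sound hr
        show Quotient.mk _ y ∈ F
        rw [e]
        exact hx
      · rwa [(orb_eq_iff y x).2 hr]
    have hne : NeBot (𝓝[F'] c ⊓ comap (orb K) (𝓝 C)) := by
      rw [inf_neBot_iff]
      intro s hs t ht
      obtain ⟨U, hU, hUs⟩ := mem_nhdsWithin_iff_exists_mem_nhds_inter.1 hs
      obtain ⟨V, hV, hVt⟩ := mem_comap.1 ht
      obtain ⟨y, hyU, hyF, hyV⟩ := key U hU V hV
      exact ⟨y, hUs ⟨hyU, hyF⟩, hVt hyV⟩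
    have h1 : Tendsto (orb K) (𝓝[F'] c ⊓ comap (orb K) (𝓝 C)) (𝓝 C) :=
      tendsto_comap.mono_left inf_le_right
    have h2 : Tendsto (orb K) (𝓝[F'] c ⊓ comap (orb K) (𝓝 C)) (𝓝 (orb K c)) :=
      (continuous_orb.tendsto c).mono_left (inf_le_left.trans nhdsWithin_le_nhds)
    have h3 : c ∈ F' := by
      have : NeBot (𝓝[F'] c) := hne.mono inf_le_left
      exact hF'c.closure_eq ▸ mem_closure_iff_nhdsWithin_neBot.2 this
    exact ⟨c, h3, tendsto_nhds_unique h2 h1⟩

end QuotPolish

/-- The orbit space of a continuous action of a compact group on a Polish space is Polish. -/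
theorem polishSpace_orbitSpace {K X : Type} [Group K] [TopologicalSpace K] [CompactSpace K]
    [TopologicalSpace X] [PolishSpace X] [MulAction K X] [ContinuousSMul K X] :
    PolishSpace (MulAction.orbitRel.Quotient K X) := by
  let := TopologicalSpace.upgradeIsCompletelyMetrizable X
  have : PolishSpace (TopologicalSpace.NonemptyCompacts X) := inferInstance
  exact (QuotPolish.isClosedEmbedding_emb (K := K) (X := X)).polishSpace

end Pool.Agent.H11.VP
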