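import Pool.Agent.H11.VP.Cantor
import Pool.Agent.H11.VP.MycImage
import Pool.Agent.H11.VP.QuotPolish

/-!
From the quotient by a compact normal subgroup to the group.
-/

namespace Pool.Agent.H11.VP

open Set Topology

namespace CompactKer

open TopologicalSpace in
theorem polish_cantor : PolishSpace (ℕ → Bool) := by
  have : IsCompletelyMetrizableSpace (ℕ → Bool) := by
    let := metrizableSpaceMetric (ℕ → Bool)
    have : CompleteSpace (ℕ → Bool) := inferInstance
    exact MetricSpace.toIsCompletelyMetrizableSpace
  constructor

theorem not_countable_cantor : ¬ Countable (ℕ → Bool) := by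
  intro h
  obtain ⟨f, hf⟩ := exists_injective_nat (ℕ → Bool)
  exact Function.cantor_injective
    (fun s : Set ℕ => f (fun n => @decide (n ∈ s) (Classical.dec _))) (by
      intro s t hst
      have := hf hst
      ext n
      have := congrFun this n
      simpa using this)

variable {G H X : Type} [Group G] [Group H] [MulAction G X] (p : G →* H)

/-- The orbit space of the kernel. -/
abbrev Y (X : Type) [MulAction G X] : Type := MulAction.orbitRel.Quotient p.ker X

/-- The projection onto the orbit space of the kernel. -/
def pr (x : X) : Y p X := Quotient.mk _ x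

theorem pr_eq_iff (x y : X) : pr p x = pr p y ↔ ∃ k ∈ p.ker, k • y = x := by
  unfold pr
  rw [Quotient.eq, MulAction.orbitRel_apply]
  constructor
  · rintro ⟨k, hk⟩
    exact ⟨k, k.2, hk⟩
  · rintro ⟨k, hk, h⟩
    exact ⟨⟨k, hk⟩, h⟩

theorem pr_surjective : Function.Surjective (pr p : X → Y p X) := by
  rintro ⟨x⟩
  exact ⟨x, rfl⟩

theorem pr_smul_congr {x y : X} (g g' : G) (hg : p g = p g') (h : pr p x = pr p y) :
    pr p (g • x) = pr p (g' • y) := by
  obtain ⟨k, hk, rfl⟩ := (pr_eq_iff p x y).1 h
  refine (pr_eq_iff p _ _).2 ⟨g * k * g'⁻¹, ?_, ?_⟩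
  · rw [MonoidHom.mem_ker] at hk ⊢
    simp [hk, hg]
  · simp [mul_smul]

/-- The action of `G` on the orbit space of the kernel. -/
def gact (g : G) : Y p X → Y p X :=
  Quotient.lift (fun x => pr p (g • x)) (fun x y h => pr_smul_congr p g g rfl (Quotient.sound h))

theorem gact_pr (g : G) (x : X) : gact p g (pr p x) = pr p (g • x) := rfl

theorem gact_congr (g g' : G) (hg : p g = p g') (y : Y p X) : gact p g y = gact p g' y := by
  obtain ⟨x, rfl⟩ := pr_surjective p y
  rw [gact_pr, gact_pr]
  exact pr_smul_congr p g g' hg rfl

/-- The action of `H` on the orbit space of the kernel. -/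
@[reducible] noncomputable def hact (hs : Function.Surjective p) : MulAction H (Y p X) where
  smul h y := gact p (Function.surjInv hs h) y
  one_smul y := by
    show gact p (Function.surjInv hs 1) y = y
    rw [gact_congr p _ 1 (by rw [Function.surjInv_eq hs, map_one])]
    obtain ⟨x, rfl⟩ := pr_surjective p y
    rw [gact_pr, one_smul]
  mul_smul a b y := by
    show gact p (Function.surjInv hs (a * b)) y =
      gact p (Function.surjInv hs a) (gact p (Function.surjInv hs b) y)
    rw [gact_congr p _ (Function.surjInv hs a * Function.surjInv hs b)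
      (by rw [map_mul, Function.surjInv_eq hs, Function.surjInv_eq hs, Function.surjInv_eq hs])]
    obtain ⟨x, rfl⟩ := pr_surjective p y
    rw [gact_pr, gact_pr, gact_pr, mul_smul]

end CompactKer

open CompactKer in
/-- If the quotient of a Polish group by a compact normal subgroup satisfies TVC, so does the
group. -/
theorem tvc_of_compact_ker {G H : Type} [Group G] [TopologicalSpace G] [IsTopologicalGroup G]
    [PolishSpace G] [Group H] [TopologicalSpace H] [IsTopologicalGroup H] [PolishSpace H]
    (p : G →* H) (hc : Continuous p) (ho : IsOpenMap p) (hs : Function.Surjective p)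
    (hk : IsCompact (p.ker : Set G)) (h : TVC H) : TVC G := by
  intro X _ _ _ _ B hB hinv
  have : CompactSpace p.ker := isCompact_iff_compactSpace.1 hk
  have : PolishSpace (Y p X) := polishSpace_orbitSpace
  letI : MulAction H (Y p X) := hact p hs
  have hsm : ∀ (g : G) (x : X), p g • pr p x = pr p (g • x) := by
    intro g x
    show gact p (Function.surjInv hs (p g)) (pr p x) = _
    rw [gact_congr p _ g (Function.surjInv_eq hs _), gact_pr]
  have hprc : Continuous (pr p : X → Y p X) := continuous_quotient_mk'
  have hpro : IsOpenMap (pr p : X → Y p X) := isOpenMap_quotient_mk'_mul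
  have : ContinuousSMul H (Y p X) := by
    refine ⟨?_⟩
    have hq : IsQuotientMap (Prod.map p (pr p) : G × X → H × Y p X) :=
      (ho.prodMap hpro).isQuotientMap (hc.prodMap hprc) (hs.prodMap (pr_surjective p))
    rw [hq.continuous_iff]
    have : (fun q : H × Y p X => q.1 • q.2) ∘ Prod.map p (pr p) =
        fun q : G × X => pr p (q.1 • q.2) := by
      funext q
      exact hsm q.1 q.2
    rw [this]
    exact hprc.comp continuous_smul
  have hmem : ∀ x, pr p x ∈ pr p '' B ↔ x ∈ B := by
    intro x
    constructor
    · rintro ⟨y, hy, hyx⟩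
      obtain ⟨k, -, rfl⟩ := (pr_eq_iff p x y).1 hyx.symm
      exact hinv k y hy
    · exact fun hx => ⟨x, hx, rfl⟩
  have hBm : @MeasurableSet (Y p X) (borel _) (pr p '' B) := by
    letI : MeasurableSpace X := borel X
    haveI : BorelSpace X := ⟨rfl⟩
    letI : MeasurableSpace (Y p X) := borel _
    haveI : BorelSpace (Y p X) := ⟨rfl⟩
    rw [← hprc.measurable.measurableSet_preimage_iff_of_surjective (pr_surjective p)]
    have : pr p ⁻¹' (pr p '' B) = B := by
      ext x
      exact hmem x
    rw [this]
    exact hB
  have hBinv : ∀ (a : H), ∀ y ∈ pr p '' B, a • y ∈ pr p '' B := by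
    rintro a _ ⟨x, hx, rfl⟩
    obtain ⟨g, rfl⟩ := hs a
    rw [hsm]
    exact ⟨g • x, hinv g x hx, rfl⟩
  rcases h (Y p X) (pr p '' B) hBm hBinv with h1 | h1
  · left
    have horb : ∀ x : X, MulAction.orbit G x = pr p ⁻¹' (MulAction.orbit H (pr p x)) := by
      intro x
      ext y
      constructor
      · rintro ⟨g, rfl⟩
        exact ⟨p g, hsm g x⟩
      · rintro ⟨a, ha⟩
        obtain ⟨g, rfl⟩ := hs a
        simp only [hsm] at ha
        obtain ⟨k, -, hk'⟩ := (pr_eq_iff p _ _).1 ha.symm
        exact ⟨k * g, by rw [← hk']; exact mul_smul k g x⟩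
    have : MulAction.orbit G '' B =
        (fun S : Set (Y p X) => pr p ⁻¹' S) '' (MulAction.orbit H '' (pr p '' B)) := by
      rw [image_image, image_image]
      exact image_congr fun x _ => horb x
    rw [CountablyManyOrbits, this]
    exact h1.image _
  · right
    obtain ⟨f, hfc, hfi, hfB, hf⟩ := cantor_of_perfectlyManyOrbits h1
    let S : Set ((ℕ → Bool) × X) := {q | pr p q.2 = f q.1}
    have hS : IsClosed S := isClosed_eq (hprc.comp continuous_snd) (hfc.comp continuous_fst)
    have := polish_cantor
    have : PolishSpace S := hS.polishSpace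
    obtain ⟨c, hcc, hci⟩ := exists_cantor_image (S := S) (fun q => q.1.1)
      (continuous_fst.comp continuous_subtype_val) (by
        have hr : range (fun q : S => q.1.1) = univ := by
          refine eq_univ_of_forall fun a => ?_
          obtain ⟨x, hx⟩ := pr_surjective p (f a)
          exact ⟨⟨(a, x), hx⟩, rfl⟩
        rw [hr]
        exact fun hcount => not_countable_cantor (countable_univ_iff.1 hcount))
    have hpc : ∀ a, pr p (c a).1.2 = f (c a).1.1 := fun a => (c a).2
    refine perfectlyManyOrbits_of_cantor (fun a => (c a).1.2)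
      (continuous_snd.comp (continuous_subtype_val.comp hcc)) ?_ ?_ ?_
    · intro a b hab
      apply hci
      apply hfi
      simp only at hab
      show f (c a).1.1 = f (c b).1.1
      rw [← hpc, ← hpc, hab]
    · intro a
      rw [← hmem, hpc]
      exact hfB _
    · intro a b hab g hg
      refine hf (c a).1.1 (c b).1.1 (fun e => hab (hci e)) (p g) ?_
      rw [← hpc, ← hpc, hsm, hg]

end Pool.Agent.H11.VP
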