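import Pool.Agent.H11.VP.OpenSub
import Pool.Agent.H11.VP.CompactKer

/-!
Products of an arbitrary Polish group with a group having a compact open subgroup.
-/

namespace Pool.Agent.H11.VP

open Set Topology

/-- If the Polish group `G` satisfies TVC and the Polish group `L` has a compact open subgroup, then
`G × L` satisfies TVC. -/
theorem tvc_prod_of_compactOpen (G : Type) [Group G] [TopologicalSpace G] [IsTopologicalGroup G]
    [PolishSpace G] (L : Type) [Group L] [TopologicalSpace L] [IsTopologicalGroup L]
    [PolishSpace L] (M : Subgroup L) (hM : IsOpen (M : Set L)) (hMc : IsCompact (M : Set L))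
    (h : TVC G) : TVC (G × L) := by
  let M' : Subgroup (G × L) := Subgroup.comap (MonoidHom.snd G L) M
  have hM' : IsOpen (M' : Set (G × L)) := hM.preimage continuous_snd
  have hM'c : IsClosed (M' : Set (G × L)) := M'.isClosed_of_isOpen hM'
  have hM'P : PolishSpace M' := hM'c.polishSpace
  have hMcs : CompactSpace M := isCompact_iff_compactSpace.1 hMc
  let e : M' ≃ₜ G × M :=
    { toFun := fun x => (x.1.1, ⟨x.1.2, x.2⟩)
      invFun := fun y => ⟨(y.1, y.2.1), y.2.2⟩
      left_inv := fun x => rfl
      right_inv := fun y => rfl
      continuous_toFun := (continuous_fst.comp continuous_subtype_val).prodMk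
        ((continuous_snd.comp continuous_subtype_val).subtype_mk _)
      continuous_invFun := (continuous_fst.prodMk
        (continuous_subtype_val.comp continuous_snd)).subtype_mk _ }
  let q : M' →* G := (MonoidHom.fst G L).comp M'.subtype
  have hq : ⇑q = Prod.fst ∘ e := rfl
  have hqc : Continuous q := by
    rw [hq]; exact continuous_fst.comp e.continuous
  have hqo : IsOpenMap q := by
    rw [hq]; exact isOpenMap_fst.comp e.isOpenMap
  have hqs : Function.Surjective q := by
    rw [hq]
    exact (Prod.fst_surjective (β := M)).comp e.surjective
  have hqk : IsCompact (q.ker : Set M') := by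
    have hker : (q.ker : Set M') = (fun m : M => e.symm (1, m)) '' univ := by
      ext x
      simp only [SetLike.mem_coe, mem_image, MonoidHom.mem_ker]
      constructor
      · intro hx
        refine ⟨⟨x.1.2, x.2⟩, trivial, ?_⟩
        apply Subtype.ext
        exact Prod.ext hx.symm rfl
      · rintro ⟨m, -, rfl⟩
        rfl
    rw [hker]
    exact isCompact_univ.image (e.symm.continuous.comp (continuous_const.prodMk continuous_id))
  exact tvc_of_open_subgroup M' hM' (tvc_of_compact_ker q hqc hqo hqs hqk h)

end Pool.Agent.H11.VP
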