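import Mathlib

/-!
# The Topological Vaught Conjecture for a Polish group (MP_cc0abd_lc)
-/

namespace Pool.Agent.H11.VP

open Set Topology

/-- The set `B` meets only countably many orbits of the action of `G`. -/
def CountablyManyOrbits (G : Type) {X : Type} [Group G] [MulAction G X] (B : Set X) : Prop :=
  (MulAction.orbit G '' B).Countable

/-- The set `B` has perfectly many orbits: some nonempty perfect subset of `B` consists of points
in pairwise distinct orbits. -/
def PerfectlyManyOrbits (G : Type) {X : Type} [TopologicalSpace X] [Group G] [MulAction G X]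
    (B : Set X) : Prop :=
  ∃ P : Set X, Perfect P ∧ P.Nonempty ∧ P ⊆ B ∧
    ∀ x ∈ P, ∀ y ∈ P, x ≠ y → MulAction.orbit G x ≠ MulAction.orbit G y

/-- `TVC(G)`: for every Polish `G`-space `X` and every `G`-invariant Borel set `B` in `X`, either
`B` meets only countably many orbits or `B` has perfectly many orbits. -/
def TVC (G : Type) [Group G] [TopologicalSpace G] : Prop :=
  ∀ (X : Type) [TopologicalSpace X] [PolishSpace X] [MulAction G X] [ContinuousSMul G X]
    (B : Set X), @MeasurableSet X (borel X) B → (∀ (g : G), ∀ x ∈ B, g • x ∈ B) →
    CountablyManyOrbits G B ∨ PerfectlyManyOrbits G B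

/-- Locally compact groups of the following kind: some open subgroup `M` of `L` has a continuous
open homomorphism onto some `ℝ^d` whose kernel is compact. -/
def CompactByVector (L : Type) [Group L] [TopologicalSpace L] : Prop :=
  ∃ (M : Subgroup L) (d : ℕ) (p : M →* Multiplicative (Fin d → ℝ)),
    IsOpen (M : Set L) ∧ Continuous p ∧ IsOpenMap p ∧ Function.Surjective p ∧
      IsCompact (p.ker : Set M)

end Pool.Agent.H11.VP
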