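import Pool.Agent.H11.VP.MycBorel

/-!
Descent: thinning a Cantor set of points in different orbits along countably many Borel maps.
-/

namespace Pool.Agent.H11.VP

open Set Topology MeasureTheory

/-- Lusin separation: the point of the Cantor space is a Borel function of the points of the
orbit. -/
theorem exists_borel_inverse {H X : Type} [Group H] [TopologicalSpace H] [PolishSpace H]
    [TopologicalSpace X] [PolishSpace X] [MeasurableSpace X] [BorelSpace X]
    [MulAction H X] [ContinuousSMul H X]
    (f : (ℕ → Bool) → X) (hc : Continuous f) (hf : ∀ a b, a ≠ b → ∀ g : H, g • f a ≠ f b) :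
    ∃ F : X → (ℕ → Bool), Measurable F ∧ ∀ (g : H) a, F (g • f a) = a := by
  classical
  have := polishSpace_cantor
  let S : ℕ → Bool → Set X := fun n c =>
    (fun p : H × (ℕ → Bool) => p.1 • f p.2) '' {p | p.2 n = c}
  have hS : ∀ n c, AnalyticSet (S n c) := by
    intro n c
    apply AnalyticSet.image_of_continuous
    · apply IsClosed.analyticSet
      have h1 : Continuous fun p : H × (ℕ → Bool) => p.2 n :=
        (continuous_apply n).comp continuous_snd
      exact (isClosed_discrete ({c} : Set Bool)).preimage h1
    · exact continuous_fst.smul (hc.comp continuous_snd)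
  have hdisj : ∀ n, Disjoint (S n true) (S n false) := by
    intro n
    rw [Set.disjoint_left]
    rintro _ ⟨p, hp, rfl⟩ ⟨q, hq, hpq⟩
    have hne : q.2 ≠ p.2 := by
      intro h
      change p.2 n = true at hp
      change q.2 n = false at hq
      rw [h, hp] at hq
      exact absurd hq (by decide)
    apply hf q.2 p.2 hne (p.1⁻¹ * q.1)
    rw [mul_smul]
    change p.1⁻¹ • (q.1 • f q.2) = f p.2
    have h1 : q.1 • f q.2 = p.1 • f p.2 := hpq
    rw [h1, inv_smul_smul]
  have hsep : ∀ n, ∃ W : Set X, S n true ⊆ W ∧ Disjoint (S n false) W ∧ MeasurableSet W := fun n =>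
    (hS n true).measurablySeparable (hS n false) (hdisj n)
  choose W hW1 hW2 hW3 using hsep
  refine ⟨fun x n => decide (x ∈ W n), ?_, ?_⟩
  · rw [measurable_pi_iff]
    intro n
    apply measurable_to_bool
    convert hW3 n using 1
    ext x
    simp
  · intro g a
    funext n
    cases ha : a n with
    | true =>
      have h1 : g • f a ∈ W n := hW1 n ⟨(g, a), ha, rfl⟩
      simp [h1]
    | false =>
      have h1 : g • f a ∉ W n := Set.disjoint_left.1 (hW2 n) ⟨(g, a), ha, rfl⟩
      simp [h1]

/-- Let `f` be a continuous map from the Cantor space into a Polish `H`-space with values in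
pairwise different orbits and let `T k` be Borel maps of the space. On some copy of the Cantor
space no `T k` maps a value of `f` into the orbit of a different one. -/
theorem descent {H X : Type} [Group H] [TopologicalSpace H] [PolishSpace H]
    [TopologicalSpace X] [PolishSpace X] [MeasurableSpace X] [BorelSpace X]
    [MulAction H X] [ContinuousSMul H X]
    (f : (ℕ → Bool) → X) (hc : Continuous f) (hf : ∀ a b, a ≠ b → ∀ g : H, g • f a ≠ f b)
    (T : ℕ → X → X) (hT : ∀ k, Measurable (T k)) :
    ∃ t : (ℕ → Bool) → (ℕ → Bool), Continuous t ∧ Function.Injective t ∧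
      ∀ k a b, a ≠ b → ∀ g : H, g • f (t b) ≠ T k (f (t a)) := by
  obtain ⟨F, hF, hFf⟩ := exists_borel_inverse f hc hf
  obtain ⟨t, htc, hti, ht⟩ := exists_thin (fun k a => F (T k (f a)))
    (fun k => hF.comp ((hT k).comp hc.measurable))
  refine ⟨t, htc, hti, fun k a b hab g hg => ?_⟩
  apply ht k a b hab
  rw [← hg, hFf]

end Pool.Agent.H11.VP
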