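import Mathlib

/-!
The functions: averages over the vector group of indicator functions of invariant open sets.
-/

namespace Pool.Agent.H11.VP

open Set Topology MeasureTheory

/-- What the functions are good for. Here `G` acts on `X` and `act` is an action of the vector group
`Fin d → ℝ` commuting with it. -/
structure GoodFamily (G : Type) {X : Type} [MeasurableSpace X] [Group G] [MulAction G X] (d : ℕ)
    (act : (Fin d → ℝ) → X → X) (h : ℕ → X → ℝ) : Prop where
  measurable : ∀ k, Measurable (h k)
  contDiff : ∀ k x, ContDiff ℝ 1 fun l => h k (act l x)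
  stable : ∀ (g : G) k, ∃ j, ∀ x, h k (g • x) = h j x
  separates : ∀ x v, (∀ k, fderiv ℝ (fun l => h k (act l x)) 0 v = 0) → act v x = x

/-- Smooth bump functions at `0` with small support. -/
noncomputable def famBump (d lam : ℕ) : ContDiffBump (0 : Fin d → ℝ) where
  rIn := 1 / (2 * ((lam : ℝ) + 1))
  rOut := 1 / ((lam : ℝ) + 1)
  rIn_pos := by positivity
  rIn_lt_rOut := by
    apply one_div_lt_one_div_of_lt
    · positivity
    · have : (0 : ℝ) < (lam : ℝ) + 1 := by positivity
      linarith

/-- The saturation of a set under a subgroup. -/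
def famSat {G X : Type} [Group G] [MulAction G X] (V : Subgroup G) (U : Set X) : Set X :=
  {y | ∃ v ∈ V, v • y ∈ U}

theorem famSat_open {G X : Type} [Group G] [TopologicalSpace G] [TopologicalSpace X]
    [MulAction G X] [ContinuousSMul G X] (V : Subgroup G) {U : Set X} (hU : IsOpen U) :
    IsOpen (famSat V U) := by
  have : famSat V U = ⋃ v ∈ V, (fun y => v • y) ⁻¹' U := by
    ext y
    simp [famSat]
  rw [this]
  exact isOpen_biUnion fun v _ => hU.preimage (continuous_const_smul v)

theorem famSat_smul {G X : Type} [Group G] [MulAction G X] {V : Subgroup G} (U : Set X) {u : G}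
    (hu : u ∈ V) (y : X) : u • y ∈ famSat V U ↔ y ∈ famSat V U := by
  constructor
  · rintro ⟨v, hv, h⟩
    exact ⟨v * u, V.mul_mem hv hu, by rwa [mul_smul]⟩
  · rintro ⟨v, hv, h⟩
    refine ⟨v * u⁻¹, V.mul_mem hv (V.inv_mem hu), ?_⟩
    rwa [mul_smul, inv_smul_smul]

/-- The averages. -/
noncomputable def famAvg {G X : Type} [Group G] [MulAction G X] {d : ℕ}
    (act : (Fin d → ℝ) → X → X) (W : Set X) (g : G) (φ : (Fin d → ℝ) → ℝ) (c : Fin d → ℝ)
    (x : X) : ℝ :=
  ∫ s, ({s | act s (g • x) ∈ W}.indicator (fun _ => (1 : ℝ)) s) * φ (c - s)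

section Avg

set_option linter.unusedSectionVars false

variable {G X : Type} [Group G] [TopologicalSpace G]
    [TopologicalSpace X] [PolishSpace X] [MeasurableSpace X] [BorelSpace X]
    [MulAction G X] [ContinuousSMul G X] {d : ℕ} {act : (Fin d → ℝ) → X → X}
    (hcont : Continuous fun p : (Fin d → ℝ) × X => act p.1 p.2) (hzero : ∀ x, act 0 x = x)
    (hadd : ∀ s t x, act (s + t) x = act s (act t x))
    (hcomm : ∀ (g : G) s x, g • act s x = act s (g • x))

include hcont in
theorem famAvg_measurable {W : Set X} (hW : IsOpen W) (g : G) {φ : (Fin d → ℝ) → ℝ}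
    (hφ : Continuous φ) (c : Fin d → ℝ) : Measurable (famAvg act W g φ c) := by
  have h1 : Continuous fun p : X × (Fin d → ℝ) => act p.2 (g • p.1) :=
    hcont.comp (continuous_snd.prodMk ((continuous_const_smul g).comp continuous_fst))
  have h2 : StronglyMeasurable (Function.uncurry fun (x : X) (s : Fin d → ℝ) =>
      ({s | act s (g • x) ∈ W}.indicator (fun _ => (1 : ℝ)) s) * φ (c - s)) := by
    apply Measurable.stronglyMeasurable
    have h3 : (Function.uncurry fun (x : X) (s : Fin d → ℝ) =>
        ({s | act s (g • x) ∈ W}.indicator (fun _ => (1 : ℝ)) s) * φ (c - s)) =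
        fun p : X × (Fin d → ℝ) =>
          ({p : X × (Fin d → ℝ) | act p.2 (g • p.1) ∈ W}.indicator (fun _ => (1 : ℝ)) p) *
            φ (c - p.2) := by
      funext p
      rfl
    rw [h3]
    apply Measurable.mul
    · apply measurable_const.indicator
      exact (hW.preimage h1).measurableSet
    · exact (hφ.comp (continuous_const.sub continuous_snd)).measurable
  exact (h2.integral_prod_right (ν := volume)).measurable

/-- Along an orbit of the vector group the average is a convolution. -/
theorem famAvg_act (W : Set X) (g : G) (φ : (Fin d → ℝ) → ℝ) (c : Fin d → ℝ) (x : X)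
    (l : Fin d → ℝ) (hadd : ∀ s t x, act (s + t) x = act s (act t x))
    (hcomm : ∀ (g : G) s x, g • act s x = act s (g • x)) :
    famAvg act W g φ c (act l x) =
      ∫ s, ({s | act s (g • x) ∈ W}.indicator (fun _ => (1 : ℝ)) s) * φ (c + l - s) := by
  unfold famAvg
  rw [← integral_sub_right_eq_self (fun s => ({s | act s (g • act l x) ∈ W}.indicator
    (fun _ => (1 : ℝ)) s) * φ (c - s)) l]
  congr 1
  funext s
  have h1 : ({s | act s (g • act l x) ∈ W}.indicator (fun _ => (1 : ℝ)) (s - l)) =
      ({s | act s (g • x) ∈ W}.indicator (fun _ => (1 : ℝ)) s) := by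
    have : act (s - l) (g • act l x) = act s (g • x) := by
      rw [hcomm, ← hadd, sub_add_cancel]
    by_cases hs : act s (g • x) ∈ W
    · rw [indicator_of_mem (by simpa [this] using hs), indicator_of_mem (by simpa using hs)]
    · rw [indicator_of_notMem (by simpa [this] using hs), indicator_of_notMem (by simpa using hs)]
  simp only [h1]
  congr 2
  abel

/-- The convolution is continuously differentiable. -/
theorem famConv_contDiff {O : Set (Fin d → ℝ)} (hO : IsOpen O)
    (φ : ContDiffBump (0 : Fin d → ℝ)) :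
    ContDiff ℝ 1 fun l => ∫ s, (O.indicator (fun _ => (1 : ℝ)) s) * φ (l - s) := by
  have h1 : LocallyIntegrable (O.indicator (fun _ => (1 : ℝ))) (volume : Measure (Fin d → ℝ)) :=
    (locallyIntegrable_const (1 : ℝ)).indicator hO.measurableSet
  have h2 := HasCompactSupport.contDiff_convolution_right (n := 1) (ContinuousLinearMap.mul ℝ ℝ)
    φ.hasCompactSupport h1 φ.contDiff
  exact h2

end Avg

/-- A sequence of open sets which is a basis. -/
theorem exists_basis_seq (X : Type) [TopologicalSpace X] [SecondCountableTopology X] :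
    ∃ U : ℕ → Set X, (∀ m, IsOpen (U m)) ∧ ∀ x, ∀ A ∈ 𝓝 x, ∃ m, x ∈ U m ∧ U m ⊆ A := by
  obtain ⟨b, hbc, -, hb⟩ := TopologicalSpace.exists_countable_basis X
  obtain ⟨U, hU⟩ := (hbc.insert univ).exists_eq_range ⟨univ, mem_insert _ _⟩
  refine ⟨U, fun m => ?_, fun x A hA => ?_⟩
  · have : U m ∈ insert univ b := by rw [hU]; exact mem_range_self m
    rcases this with h | h
    · rw [h]; exact isOpen_univ
    · exact hb.isOpen h
  · obtain ⟨t, ht, hxt, htA⟩ := hb.mem_nhds_iff.1 hA
    have : t ∈ range U := by rw [← hU]; exact mem_insert_of_mem _ ht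
    obtain ⟨m, rfl⟩ := this
    exact ⟨m, hxt, htA⟩

/-- The derivative in direction `v` vanishes on a dense set: the values at `0` and `v` agree. -/
theorem eq_of_fderiv_dense {d : ℕ} {F : (Fin d → ℝ) → ℝ} (hF : ContDiff ℝ 1 F)
    (v : Fin d → ℝ) {c : ℕ → Fin d → ℝ} (hc : DenseRange c) (h : ∀ k, fderiv ℝ F (c k) v = 0) :
    F v = F 0 := by
  have h1 : Continuous fun x => fderiv ℝ F x v :=
    (hF.continuous_fderiv (by norm_num)).clm_apply continuous_const
  have h2 : (fun x => fderiv ℝ F x v) = fun _ => 0 :=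
    hc.equalizer h1 continuous_const (by funext k; exact h k)
  have hd : Differentiable ℝ F := hF.differentiable (by norm_num)
  have h3 : ∀ t : ℝ, HasDerivAt (fun t : ℝ => F (t • v)) (fderiv ℝ F (t • v) v) t := by
    intro t
    have h4 : HasDerivAt (fun t : ℝ => t • v) v t := by
      simpa using (hasDerivAt_id t).smul_const v
    exact (hd (t • v)).hasFDerivAt.comp_hasDerivAt t h4
  have h5 : ∀ t : ℝ, deriv (fun t : ℝ => F (t • v)) t = 0 := by
    intro t
    rw [(h3 t).deriv]
    exact congrFun h2 (t • v)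
  have h6 := is_const_of_deriv_eq_zero (fun t => (h3 t).differentiableAt) h5 1 0
  simpa using h6

/-- The convolution distinguishes `0` and `v` if `O` contains a ball about `0` and misses a ball
about `v`. -/
theorem famConv_ne {d : ℕ} {O : Set (Fin d → ℝ)} {v : Fin d → ℝ}
    (φ : ContDiffBump (0 : Fin d → ℝ)) (h0 : Metric.ball 0 φ.rOut ⊆ O)
    (h1 : Disjoint (Metric.ball v φ.rOut) O) :
    (∫ s, (O.indicator (fun _ => (1 : ℝ)) s) * φ (v - s)) ≠
      ∫ s, (O.indicator (fun _ => (1 : ℝ)) s) * φ (0 - s) := by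
  have e1 : (∫ s, (O.indicator (fun _ => (1 : ℝ)) s) * φ (v - s)) = 0 := by
    have : (fun s => (O.indicator (fun _ => (1 : ℝ)) s) * φ (v - s)) = fun _ => 0 := by
      funext s
      by_cases hs : s ∈ O
      · have h2 : s ∉ Metric.ball v φ.rOut := fun h => (disjoint_left.1 h1) h hs
        rw [φ.zero_of_le_dist, mul_zero]
        rw [Metric.mem_ball, not_lt, dist_comm] at h2
        simpa [dist_eq_norm] using h2
      · rw [indicator_of_notMem hs, zero_mul]
    rw [this, integral_zero]
  have e2 : (∫ s, (O.indicator (fun _ => (1 : ℝ)) s) * φ (0 - s)) = ∫ s, φ s := by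
    rw [← integral_neg_eq_self (fun s => φ s)]
    congr 1
    funext s
    by_cases hs : s ∈ O
    · rw [indicator_of_mem hs, one_mul, zero_sub]
    · have h2 : s ∉ Metric.ball 0 φ.rOut := fun h => hs (h0 h)
      rw [indicator_of_notMem hs, zero_mul, φ.zero_of_le_dist]
      rw [Metric.mem_ball, not_lt] at h2
      simpa [dist_eq_norm] using h2
  rw [e1, e2]
  exact (φ.integral_pos (μ := volume)).ne

theorem indicator_one_congr {α β : Type} {A : Set α} {B : Set β} {a : α} {b : β}
    (h : a ∈ A ↔ b ∈ B) :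
    A.indicator (fun _ => (1 : ℝ)) a = B.indicator (fun _ => (1 : ℝ)) b := by
  by_cases hb : b ∈ B
  · rw [indicator_of_mem hb, indicator_of_mem (h.2 hb)]
  · rw [indicator_of_notMem hb, indicator_of_notMem (fun h' => hb (h.1 h'))]

theorem fderiv_shift {d : ℕ} (F : (Fin d → ℝ) → ℝ) (c : Fin d → ℝ) :
    fderiv ℝ (fun l => F (c + l)) 0 = fderiv ℝ F c := by
  rw [fderiv_comp_add_left, add_zero]

/-- For a non-archimedean Polish group such functions exist. -/
theorem exists_goodFamily {G X : Type} [Group G] [TopologicalSpace G] [IsTopologicalGroup G]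
    [PolishSpace G] [NonarchimedeanGroup G]
    [TopologicalSpace X] [PolishSpace X] [MeasurableSpace X] [BorelSpace X]
    [MulAction G X] [ContinuousSMul G X] (d : ℕ) (act : (Fin d → ℝ) → X → X)
    (hcont : Continuous fun p : (Fin d → ℝ) × X => act p.1 p.2) (hzero : ∀ x, act 0 x = x)
    (hadd : ∀ s t x, act (s + t) x = act s (act t x))
    (hcomm : ∀ (g : G) s x, g • act s x = act s (g • x)) :
    ∃ h : ℕ → X → ℝ, GoodFamily G d act h := by
  obtain ⟨N, hN⟩ := (𝓝 (1 : G)).exists_antitone_basis
  have hV : ∀ n, ∃ V : OpenSubgroup G, (V : Set G) ⊆ N n := fun n =>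
    NonarchimedeanGroup.is_nonarchimedean (N n) (hN.1.mem_of_mem trivial)
  choose V hV using hV
  obtain ⟨U, hUo, hUb⟩ := exists_basis_seq X
  obtain ⟨e, he⟩ := exists_surjective_nat (ℕ × ℕ × ℕ × ℕ × ℕ)
  set gs : ℕ → G := TopologicalSpace.denseSeq G with hgs
  set cs : ℕ → Fin d → ℝ := TopologicalSpace.denseSeq (Fin d → ℝ) with hcs
  let H : ℕ → ℕ → G → ℕ → ℕ → X → ℝ := fun n m g lam c =>
    famAvg act (famSat (V n : Subgroup G) (U m)) g (famBump d lam) (cs c)
  let h : ℕ → X → ℝ := fun k =>
    H (e k).1 (e k).2.1 (gs (e k).2.2.1) (e k).2.2.2.1 (e k).2.2.2.2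
  have hWo : ∀ n m, IsOpen (famSat (V n : Subgroup G) (U m)) := fun n m =>
    famSat_open _ (hUo m)
  have hrep : ∀ n m g lam c, ∃ k, h k = H n m g lam c := by
    intro n m g lam c
    have ho : IsOpen {g' : G | g' * g⁻¹ ∈ (V n : Subgroup G)} :=
      (V n).isOpen.preimage (continuous_mul_const g⁻¹)
    obtain ⟨i, hi⟩ := (TopologicalSpace.denseRange_denseSeq G).exists_mem_open ho
      ⟨g, by simp⟩
    obtain ⟨k, hk⟩ := he (n, m, i, lam, c)
    refine ⟨k, ?_⟩
    simp only [h, hk]
    funext x
    simp only [H, famAvg]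
    congr 1
    funext s
    congr 1
    have h1 : act s (gs i • x) ∈ famSat (V n : Subgroup G) (U m) ↔
        act s (g • x) ∈ famSat (V n : Subgroup G) (U m) := by
      have h2 : act s (gs i • x) = (gs i * g⁻¹) • act s (g • x) := by
        rw [hcomm, smul_smul, inv_mul_cancel_right]
      rw [h2]
      exact famSat_smul _ hi _
    exact indicator_one_congr h1
  refine ⟨h, ⟨fun k => ?_, fun k x => ?_, fun g k => ?_, fun x v hv => ?_⟩⟩
  · exact famAvg_measurable hcont (hWo _ _) _ (famBump d _).continuous _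
  · have h1 : (fun l => h k (act l x)) = fun l => (fun l => ∫ s,
        ({s | act s (gs (e k).2.2.1 • x) ∈ famSat (V (e k).1 : Subgroup G) (U (e k).2.1)}.indicator
          (fun _ => (1 : ℝ)) s) * famBump d (e k).2.2.2.1 (l - s)) (cs (e k).2.2.2.2 + l) := by
      funext l
      exact famAvg_act _ _ _ _ _ _ hadd hcomm
    rw [h1]
    refine (famConv_contDiff ?_ _).comp (contDiff_const.add contDiff_id)
    exact (hWo _ _).preimage (hcont.comp (continuous_id.prodMk continuous_const))
  · obtain ⟨j, hj⟩ := hrep (e k).1 (e k).2.1 (gs (e k).2.2.1 * g) (e k).2.2.2.1 (e k).2.2.2.2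
    refine ⟨j, fun x => ?_⟩
    rw [hj]
    simp only [h, H, famAvg, smul_smul]
  · by_contra hne
    obtain ⟨A, B, hA, hB, hxA, hvB, hAB⟩ := t2_separation (Ne.symm hne)
    have h1 : (fun p : G × X => p.1 • p.2) ⁻¹' A ∈ 𝓝 ((1 : G), x) := by
      apply (hA.preimage continuous_smul).mem_nhds
      simpa using hxA
    rw [nhds_prod_eq, Filter.mem_prod_iff] at h1
    obtain ⟨M, hM, P, hP, hMP⟩ := h1
    obtain ⟨n, -, hn⟩ := hN.1.mem_iff.1 hM
    obtain ⟨m, hxm, hm⟩ := hUb x P hP
    set W := famSat (V n : Subgroup G) (U m) with hW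
    have hWA : W ⊆ A := by
      rintro y ⟨u, hu, huy⟩
      have h2 : (u⁻¹, u • y) ∈ M ×ˢ P := ⟨hn (hV n ((V n).inv_mem hu)), hm huy⟩
      have h3 := hMP h2
      simpa using h3
    have hxW : x ∈ W := ⟨1, Subgroup.one_mem _, by simpa using hxm⟩
    set O : Set (Fin d → ℝ) := {s | act s ((1 : G) • x) ∈ W} with hO
    have hc1 : Continuous fun s => act s ((1 : G) • x) :=
      hcont.comp (continuous_id.prodMk continuous_const)
    have hOo : IsOpen O := (hWo n m).preimage hc1
    have hO0 : O ∈ 𝓝 (0 : Fin d → ℝ) := by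
      apply hOo.mem_nhds
      change act 0 ((1 : G) • x) ∈ W
      rw [one_smul, hzero]
      exact hxW
    have hOv : Oᶜ ∈ 𝓝 v := by
      have h2 : (fun s => act s ((1 : G) • x)) ⁻¹' B ∈ 𝓝 v := by
        apply (hB.preimage hc1).mem_nhds
        simpa using hvB
      apply Filter.mem_of_superset h2
      intro s hs hs2
      exact (disjoint_left.1 hAB) (hWA hs2) hs
    obtain ⟨r, hr, hr0⟩ := Metric.mem_nhds_iff.1 hO0
    obtain ⟨r', hr', hrv⟩ := Metric.mem_nhds_iff.1 hOv
    obtain ⟨lam, hlam⟩ := exists_nat_one_div_lt (lt_min hr hr')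
    have hrad : (famBump d lam).rOut = 1 / ((lam : ℝ) + 1) := rfl
    refine famConv_ne (O := O) (v := v) (famBump d lam) ?_ ?_ ?_
    · refine (Metric.ball_subset_ball ?_).trans hr0
      rw [hrad]
      exact (hlam.trans_le (min_le_left _ _)).le
    · rw [disjoint_left]
      intro s hs
      apply hrv
      refine Metric.ball_subset_ball ?_ hs
      rw [hrad]
      exact (hlam.trans_le (min_le_right _ _)).le
    · refine eq_of_fderiv_dense (F := fun l => ∫ s, (O.indicator (fun _ => (1 : ℝ)) s) *
        famBump d lam (l - s)) (famConv_contDiff hOo _) v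
        (TopologicalSpace.denseRange_denseSeq (Fin d → ℝ)) fun c => ?_
      obtain ⟨k, hk⟩ := hrep n m 1 lam c
      have h2 := hv k
      have h3 : (fun l => h k (act l x)) = fun l => (fun l => ∫ s,
          (O.indicator (fun _ => (1 : ℝ)) s) * famBump d lam (l - s)) (cs c + l) := by
        funext l
        rw [hk]
        exact famAvg_act _ _ _ _ _ _ hadd hcomm
      rw [h3] at h2
      have h4 := fderiv_shift (fun l => ∫ s, (O.indicator (fun _ => (1 : ℝ)) s) *
        famBump d lam (l - s)) (cs c)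
      rw [h4] at h2
      exact h2

end Pool.Agent.H11.VP
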