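import Pool.Agent.H11.VP.LDefs

/-!
The chain rule along an orbit of a locally Lie group.
-/

namespace Pool.Agent.H11.VP

open Set Topology

/-- Near `0` the functions `s ↦ h k (act (e s) y)` are continuously differentiable, and their
derivative at `t` is the derivative at `0` of the function belonging to the point `act (e t) y`,
composed with a linear map depending only on `t` (the derivative at `t` of
`s ↦ e.symm (e s * (e t)⁻¹)`). -/
theorem exists_chain {L X : Type} [Group L] [TopologicalSpace L] [IsTopologicalGroup L]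
    (act : L → X → X) (hmul : ∀ s t x, act (s * t) x = act s (act t x))
    {d : ℕ} {e : OpenPartialHomeomorph (Fin d → ℝ) L} (he : LieChart L d e) {h : ℕ → X → ℝ}
    (hd : ∀ k x, ContDiffAt ℝ 1 (fun t => h k (act (e t) x)) 0) :
    ∃ U ∈ 𝓝 (0 : Fin d → ℝ), ∀ t ∈ U, ∃ S : (Fin d → ℝ) →L[ℝ] (Fin d → ℝ), ∀ k y,
      ContDiffAt ℝ 1 (fun s => h k (act (e s) y)) t ∧
        fderiv ℝ (fun s => h k (act (e s) y)) t =
          (fderiv ℝ (fun s => h k (act (e s) (act (e t) y))) 0).comp S := by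
  have hm1 : ∀ᶠ p in 𝓝 (0 : (Fin d → ℝ) × (Fin d → ℝ)), ContDiffAt ℝ 1
      (fun p : (Fin d → ℝ) × (Fin d → ℝ) => e.symm (e p.1 * (e p.2)⁻¹)) p :=
    he.contDiffAt.eventually (by simp)
  have hdiag : Filter.Tendsto (fun t : Fin d → ℝ => (t, t)) (𝓝 0)
      (𝓝 (0 : (Fin d → ℝ) × (Fin d → ℝ))) := by
    have h1 : Continuous (fun t : Fin d → ℝ => (t, t)) := by fun_prop
    exact h1.tendsto' 0 0 rfl
  have h1t : (1 : L) ∈ e.target := by
    rw [← he.map_zero]
    exact e.map_source he.zero_mem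
  have hs1 : e.symm 1 = 0 := by
    rw [← he.map_zero]
    exact e.left_inv he.zero_mem
  refine ⟨_, Filter.inter_mem (e.open_source.mem_nhds he.zero_mem) (hdiag.eventually hm1), ?_⟩
  rintro t ⟨hts, htm⟩
  have hσ : ContDiffAt ℝ 1 (fun s : Fin d → ℝ => e.symm (e s * (e t)⁻¹)) t := by
    have h2 : ContDiffAt ℝ 1 (fun s : Fin d → ℝ => (s, t)) t :=
      contDiffAt_id.prodMk contDiffAt_const
    exact ContDiffAt.comp t (g := fun p : (Fin d → ℝ) × (Fin d → ℝ) => e.symm (e p.1 * (e p.2)⁻¹))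
      (f := fun s : Fin d → ℝ => (s, t)) htm h2
  have hσt : (fun s : Fin d → ℝ => e.symm (e s * (e t)⁻¹)) t = 0 := by
    simp only [mul_inv_cancel]
    exact hs1
  have hev : ∀ᶠ s in 𝓝 t, e s * (e t)⁻¹ ∈ e.target := by
    have h3 : ContinuousAt (fun s : Fin d → ℝ => e s * (e t)⁻¹) t :=
      (e.continuousAt hts).mul continuousAt_const
    have h4 : (fun s : Fin d → ℝ => e s * (e t)⁻¹) t ∈ e.target := by
      simp only [mul_inv_cancel]
      exact h1t
    exact h3.preimage_mem_nhds (e.open_target.mem_nhds h4)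
  refine ⟨fderiv ℝ (fun s : Fin d → ℝ => e.symm (e s * (e t)⁻¹)) t, fun k y => ?_⟩
  have hw : ContDiffAt ℝ 1 (fun r => h k (act (e r) (act (e t) y)))
      ((fun s : Fin d → ℝ => e.symm (e s * (e t)⁻¹)) t) := by
    rw [hσt]
    exact hd k _
  have heq : (fun s => h k (act (e s) y)) =ᶠ[𝓝 t]
      (fun r => h k (act (e r) (act (e t) y))) ∘ (fun s : Fin d → ℝ => e.symm (e s * (e t)⁻¹)) := by
    filter_upwards [hev] with s hs
    simp only [Function.comp]
    rw [e.right_inv hs, ← hmul, inv_mul_cancel_right]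
  refine ⟨(ContDiffAt.comp t hw hσ).congr_of_eventuallyEq heq, ?_⟩
  have hσt' : e.symm (e t * (e t)⁻¹) = 0 := hσt
  rw [heq.fderiv_eq, fderiv_comp t (hw.differentiableAt (by simp)) (hσ.differentiableAt (by simp)),
    hσt']

end Pool.Agent.H11.VP
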