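import Pool.Agent.H11.VP.LDefs

/-!
Examples of locally Lie groups.
-/

namespace Pool.Agent.H11.VP

open Set Topology Manifold

/-- Real Lie groups (of class `C^1` at least) are locally Lie. -/
theorem locallyLie_of_lieGroup {E : Type} [NormedAddCommGroup E] [NormedSpace ℝ E]
    [FiniteDimensional ℝ E] (L : Type) [Group L] [TopologicalSpace L] [ChartedSpace E L]
    [LieGroup 𝓘(ℝ, E) 1 L] : LocallyLie L := by
  let d := Module.finrank ℝ E
  let φ : (Fin d → ℝ) ≃L[ℝ] E :=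
    (ContinuousLinearEquiv.ofFinrankEq (by simp [d]) : (Fin d → ℝ) ≃L[ℝ] E)
  let c : OpenPartialHomeomorph L E := chartAt E (1 : L)
  let ψ : (Fin d → ℝ) ≃ₜ E := φ.toHomeomorph.trans (Homeomorph.addRight (c 1))
  let e : OpenPartialHomeomorph (Fin d → ℝ) L := ψ.toOpenPartialHomeomorph.trans c.symm
  have hψ : ∀ t, ψ t = φ t + c 1 := fun t => rfl
  have hψs : ∀ x, ψ.symm x = φ.symm (x - c 1) := fun x => by
    rw [Homeomorph.symm_apply_eq, hψ]; simp
  have he : ∀ t, e t = c.symm (ψ t) := fun t => rfl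
  have hes : ∀ x, e.symm x = ψ.symm (c x) := fun x => rfl
  have h1 : (1 : L) ∈ c.source := mem_chart_source E 1
  have he0 : e 0 = 1 := by
    rw [he, hψ, map_zero, zero_add]; exact c.left_inv h1
  refine ⟨d, e, ?_, he0, ?_⟩
  · rw [OpenPartialHomeomorph.trans_source]
    refine ⟨mem_univ _, ?_⟩
    change ψ 0 ∈ c.target
    rw [hψ, map_zero, zero_add]; exact c.map_source h1
  · have htar : ψ 0 ∈ c.target := by rw [hψ, map_zero, zero_add]; exact c.map_source h1
    have hsymm : ContMDiffAt 𝓘(ℝ, E) 𝓘(ℝ, E) 1 c.symm (ψ 0) :=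
      (contMDiffOn_chart_symm (I := 𝓘(ℝ, E)) (n := 1) (x := (1 : L))).contMDiffAt
        (c.open_target.mem_nhds htar)
    have hψd : ContDiff ℝ 1 ψ := by
      have : (ψ : (Fin d → ℝ) → E) = fun t => φ t + c 1 := funext hψ
      rw [this]; exact φ.contDiff.add contDiff_const
    have hψsd : ContDiff ℝ 1 ψ.symm := by
      have : (ψ.symm : E → (Fin d → ℝ)) = fun x => φ.symm (x - c 1) := funext hψs
      rw [this]; exact φ.symm.contDiff.comp (contDiff_id.sub contDiff_const)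
    have hf : ContMDiffAt 𝓘(ℝ, (Fin d → ℝ) × (Fin d → ℝ)) 𝓘(ℝ, E) 1
        (fun p : (Fin d → ℝ) × (Fin d → ℝ) => e p.1) 0 := by
      have : ContMDiffAt 𝓘(ℝ, (Fin d → ℝ) × (Fin d → ℝ)) 𝓘(ℝ, E) 1
        (fun p : (Fin d → ℝ) × (Fin d → ℝ) => ψ p.1) 0 :=
          (hψd.comp contDiff_fst).contDiffAt.contMDiffAt
      exact ContMDiffAt.comp (0 : (Fin d → ℝ) × (Fin d → ℝ)) (g := c.symm)
        (f := fun p : (Fin d → ℝ) × (Fin d → ℝ) => ψ p.1) hsymm this
    have hg : ContMDiffAt 𝓘(ℝ, (Fin d → ℝ) × (Fin d → ℝ)) 𝓘(ℝ, E) 1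
        (fun p : (Fin d → ℝ) × (Fin d → ℝ) => e p.2) 0 := by
      have : ContMDiffAt 𝓘(ℝ, (Fin d → ℝ) × (Fin d → ℝ)) 𝓘(ℝ, E) 1
        (fun p : (Fin d → ℝ) × (Fin d → ℝ) => ψ p.2) 0 :=
          (hψd.comp contDiff_snd).contDiffAt.contMDiffAt
      exact ContMDiffAt.comp (0 : (Fin d → ℝ) × (Fin d → ℝ)) (g := c.symm)
        (f := fun p : (Fin d → ℝ) × (Fin d → ℝ) => ψ p.2) hsymm this
    have hm : ContMDiffAt 𝓘(ℝ, (Fin d → ℝ) × (Fin d → ℝ)) 𝓘(ℝ, E) 1
        (fun p : (Fin d → ℝ) × (Fin d → ℝ) => e p.1 * (e p.2)⁻¹) 0 := hf.mul hg.inv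
    have hval : e (0 : (Fin d → ℝ) × (Fin d → ℝ)).1 *
        (e (0 : (Fin d → ℝ) × (Fin d → ℝ)).2)⁻¹ = 1 := by
      rw [Prod.fst_zero, Prod.snd_zero, he0, inv_one, mul_one]
    have hchart : ContMDiffAt 𝓘(ℝ, E) 𝓘(ℝ, E) 1 c (1 : L) :=
      (contMDiffOn_chart (I := 𝓘(ℝ, E)) (n := 1) (x := (1 : L))).contMDiffAt
        (c.open_source.mem_nhds h1)
    have hcm : ContMDiffAt 𝓘(ℝ, (Fin d → ℝ) × (Fin d → ℝ)) 𝓘(ℝ, E) 1
        (fun p : (Fin d → ℝ) × (Fin d → ℝ) => c (e p.1 * (e p.2)⁻¹)) 0 := by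
      refine ContMDiffAt.comp (0 : (Fin d → ℝ) × (Fin d → ℝ)) (g := c) ?_ hm
      rw [hval]; exact hchart
    have hcd := contMDiffAt_iff_contDiffAt.1 hcm
    exact hψsd.contDiffAt.comp (0 : (Fin d → ℝ) × (Fin d → ℝ)) hcd

/-- A locally Lie Polish group is of the kind considered. -/
theorem openCompactByLie_of_locallyLie (L : Type) [Group L] [TopologicalSpace L]
    [IsTopologicalGroup L] [PolishSpace L] (hL : LocallyLie L) : OpenCompactByLie L := by
  refine ⟨⊤, L, inferInstance, inferInstance, inferInstance, inferInstance,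
    (⊤ : Subgroup L).subtype, isOpen_univ, hL, continuous_subtype_val,
    isOpen_univ.isOpenMap_subtype_val, fun x => ⟨⟨x, trivial⟩, rfl⟩, ?_⟩
  refine Set.Subsingleton.isCompact fun x hx y hy => ?_
  exact Subtype.ext ((MonoidHom.mem_ker.1 hx).trans (MonoidHom.mem_ker.1 hy).symm)

/-- The vector group is locally Lie. -/
theorem locallyLie_vec (d : ℕ) : LocallyLie (Multiplicative (Fin d → ℝ)) := by
  let ψ : (Fin d → ℝ) ≃ₜ Multiplicative (Fin d → ℝ) :=
    { Multiplicative.ofAdd with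
      continuous_toFun := continuous_ofAdd
      continuous_invFun := continuous_toAdd }
  refine ⟨d, ψ.toOpenPartialHomeomorph, mem_univ _, rfl, ?_⟩
  have : (fun p : (Fin d → ℝ) × (Fin d → ℝ) =>
      ψ.toOpenPartialHomeomorph.symm (ψ.toOpenPartialHomeomorph p.1 *
        (ψ.toOpenPartialHomeomorph p.2)⁻¹)) = fun p => p.1 - p.2 := by
    funext p
    exact (sub_eq_add_neg p.1 p.2).symm
  rw [this]
  exact (contDiff_fst.sub contDiff_snd).contDiffAt

/-- The groups of the first kind are of the second kind. -/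
theorem openCompactByLie_of_compactByVector (L : Type) [Group L] [TopologicalSpace L]
    (hL : CompactByVector L) : OpenCompactByLie L := by
  obtain ⟨M, d, p, hM, hpc, hpo, hps, hpk⟩ := hL
  have hRP : PolishSpace (Multiplicative (Fin d → ℝ)) :=
    inferInstanceAs (PolishSpace (Fin d → ℝ))
  exact ⟨M, Multiplicative (Fin d → ℝ), inferInstance, inferInstance, inferInstance, hRP, p, hM,
    locallyLie_vec d, hpc, hpo, hps, hpk⟩

/-- A group with a compact open subgroup is of the kind considered. -/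
theorem openCompactByLie_of_isCompact (L : Type) [Group L] [TopologicalSpace L]
    (M : Subgroup L) (hM : IsOpen (M : Set L)) (hc : IsCompact (M : Set L)) :
    OpenCompactByLie L := by
  have hcM : CompactSpace M := isCompact_iff_compactSpace.1 hc
  have hsub : Subsingleton (Multiplicative (Fin 0 → ℝ)) :=
    inferInstanceAs (Subsingleton (Fin 0 → ℝ))
  refine openCompactByLie_of_compactByVector L ⟨M, 0, 1, hM, continuous_const, ?_, ?_, ?_⟩
  · intro U _
    exact isOpen_discrete _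
  · intro y
    exact ⟨1, Subsingleton.elim _ _⟩
  · have : ((1 : M →* Multiplicative (Fin 0 → ℝ)).ker : Set M) = univ := by
      ext x; simp
    rw [this]
    exact isCompact_univ

end Pool.Agent.H11.VP
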