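import Pool.Agent.H11.VP.Defs

/-!
Locally Lie groups, and products with them.
-/

namespace Pool.Agent.H11.VP

open Set Topology

/-- The chart `e` of the topological group `L` at the identity, defined near `0` in `ℝ^d`, makes
`(x, y) ↦ x y⁻¹` continuously differentiable near the identity. -/
structure LieChart (L : Type) [Group L] [TopologicalSpace L] (d : ℕ)
    (e : OpenPartialHomeomorph (Fin d → ℝ) L) : Prop where
  zero_mem : (0 : Fin d → ℝ) ∈ e.source
  map_zero : e 0 = 1
  contDiffAt : ContDiffAt ℝ 1
    (fun p : (Fin d → ℝ) × (Fin d → ℝ) => e.symm (e p.1 * (e p.2)⁻¹)) 0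

/-- `L` is a Lie group near the identity: it has a chart as above, for some dimension. -/
def LocallyLie (L : Type) [Group L] [TopologicalSpace L] : Prop :=
  ∃ (d : ℕ) (e : OpenPartialHomeomorph (Fin d → ℝ) L), LieChart L d e

/-- Some open subgroup `M` of `L` has a continuous open homomorphism with compact kernel onto a
Polish group which is a Lie group near the identity. -/
def OpenCompactByLie (L : Type) [Group L] [TopologicalSpace L] : Prop :=
  ∃ (M : Subgroup L) (Q : Type) (_ : Group Q) (_ : TopologicalSpace Q) (_ : IsTopologicalGroup Q)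
    (_ : PolishSpace Q) (p : M →* Q),
    IsOpen (M : Set L) ∧ LocallyLie Q ∧ Continuous p ∧ IsOpenMap p ∧ Function.Surjective p ∧
      IsCompact (p.ker : Set M)

/-- The functions used for the product with a locally Lie group. Here `act` is an action of the
group `L` on `X` commuting with the one of `G` and `e` a map from `ℝ^d` to `L`. -/
structure LFamily (G : Type) {X L : Type} [MeasurableSpace X] [Group G] [MulAction G X] (d : ℕ)
    (e : (Fin d → ℝ) → L) (act : L → X → X) (h : ℕ → X → ℝ) : Prop where
  measurable : ∀ k, Measurable (h k)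
  contDiffAt : ∀ k x, ContDiffAt ℝ 1 (fun t => h k (act (e t) x)) 0
  stable : ∀ (g : G) k, ∃ j, ∀ x, h k (g • x) = h j x
  separates : ∀ x y, (∀ k, h k x = h k y) → x = y

end Pool.Agent.H11.VP
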