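import Pool.Agent.H49.VPL.Avg

/-!
The functions: averages over the locally Lie group of indicator functions of invariant open sets.
-/

namespace Pool.Agent.H11.VP

open Set Topology MeasureTheory Metric

/-- For a non-archimedean Polish group `G` and a locally Lie Polish group `L` such functions
exist: with a basis `U` of `X`, a basis `V` at `1` of open subgroups of `G`, representatives `r` of
`V \ G`, `W = V • U` and small bump functions `b` on `L` at `1` they are
`x ↦ ∫ b s * 1[act s (r • x) ∈ W] ds` with a right Haar measure. -/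
theorem exists_lFamily {G L X : Type} [Group G] [TopologicalSpace G] [IsTopologicalGroup G]
    [PolishSpace G] [NonarchimedeanGroup G]
    [Group L] [TopologicalSpace L] [IsTopologicalGroup L] [PolishSpace L]
    [TopologicalSpace X] [PolishSpace X] [MeasurableSpace X] [BorelSpace X]
    [MulAction G X] [ContinuousSMul G X] (act : L → X → X)
    (hcont : Continuous fun p : L × X => act p.1 p.2) (hone : ∀ x, act 1 x = x)
    (hmul : ∀ s t x, act (s * t) x = act s (act t x))
    (hcomm : ∀ (g : G) s x, g • act s x = act s (g • x))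
    {d : ℕ} {e : OpenPartialHomeomorph (Fin d → ℝ) L} (he : LieChart L d e) :
    ∃ h : ℕ → X → ℝ, LFamily G d e act h := by
  letI : MeasurableSpace L := borel L
  haveI : BorelSpace L := ⟨rfl⟩
  obtain ⟨R, r, hr, hrR, hre, hm⟩ := exists_lRadius he
  haveI : LocallyCompactSpace L :=
    (isCompact_lBall hre).locallyCompactSpace_of_mem_nhds_of_group (lBall_mem_nhds he hr hre)
  let μ : Measure L := (Measure.haar : Measure L).inv
  obtain ⟨N, hN⟩ := (𝓝 (1 : G)).exists_antitone_basis
  have hV : ∀ n, ∃ V : OpenSubgroup G, (V : Set G) ⊆ N n := fun n =>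
    NonarchimedeanGroup.is_nonarchimedean (N n) (hN.1.mem_of_mem trivial)
  choose V hV using hV
  obtain ⟨U, hUo, hUb⟩ := exists_basis_seq X
  obtain ⟨en, hen⟩ := exists_surjective_nat (ℕ × ℕ × ℕ × ℕ)
  set gs : ℕ → G := TopologicalSpace.denseSeq G with hgs
  let H : ℕ → ℕ → G → ℕ → X → ℝ := fun n m g lam =>
    lAvg μ act (famSat (V n : Subgroup G) (U m)) g (lBump e r (lamBump d hr lam))
  let h : ℕ → X → ℝ := fun k => H (en k).1 (en k).2.1 (gs (en k).2.2.1) (en k).2.2.2
  have hWo : ∀ n m, IsOpen (famSat (V n : Subgroup G) (U m)) := fun n m =>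
    famSat_open _ (hUo m)
  have hrep : ∀ n m g lam, ∃ k, h k = H n m g lam := by
    intro n m g lam
    have ho : IsOpen {g' : G | g' * g⁻¹ ∈ (V n : Subgroup G)} :=
      (V n).isOpen.preimage (continuous_mul_const g⁻¹)
    obtain ⟨i, hi⟩ := (TopologicalSpace.denseRange_denseSeq G).exists_mem_open ho
      ⟨g, by simp⟩
    obtain ⟨k, hk⟩ := hen (n, m, i, lam)
    refine ⟨k, ?_⟩
    simp only [h, hk]
    funext x
    simp only [H, lAvg]
    congr 1
    funext s
    congr 1
    have h1 : act s (gs i • x) ∈ famSat (V n : Subgroup G) (U m) ↔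
        act s (g • x) ∈ famSat (V n : Subgroup G) (U m) := by
      have h2 : act s (gs i • x) = (gs i * g⁻¹) • act s (g • x) := by
        rw [hcomm, smul_smul, inv_mul_cancel_right]
      rw [h2]
      exact famSat_smul _ hi _
    exact indicator_one_congr h1
  refine ⟨h, ⟨fun k => ?_, fun k x => ?_, fun g k => ?_, fun x y hxy => ?_⟩⟩
  · exact lAvg_measurable hcont (hWo _ _) _ (measurable_lBump hre (lamBump d hr _).continuous)
  · exact lAvg_contDiffAt hcont hmul hcomm he hr hrR hre hm _ (lamBump_rOut_lt d hr _)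
      (hWo _ _) _ x
  · obtain ⟨j, hj⟩ := hrep (en k).1 (en k).2.1 (gs (en k).2.2.1 * g) (en k).2.2.2
    refine ⟨j, fun x => ?_⟩
    rw [hj]
    simp only [h, H, lAvg, smul_smul]
  · by_contra hne
    obtain ⟨A, B, hA, hB, hxA, hyB, hAB⟩ := t2_separation hne
    have h1 : (fun p : G × X => p.1 • p.2) ⁻¹' A ∈ 𝓝 ((1 : G), x) := by
      apply (hA.preimage continuous_smul).mem_nhds
      simpa using hxA
    rw [nhds_prod_eq, Filter.mem_prod_iff] at h1
    obtain ⟨M, hM, P, hP, hMP⟩ := h1
    obtain ⟨n, -, hn⟩ := hN.1.mem_iff.1 hM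
    obtain ⟨m, hxm, hm'⟩ := hUb x P hP
    set W := famSat (V n : Subgroup G) (U m) with hW
    have hWA : W ⊆ A := by
      rintro y ⟨u, hu, huy⟩
      have h2 : (u⁻¹, u • y) ∈ M ×ˢ P := ⟨hn (hV n ((V n).inv_mem hu)), hm' huy⟩
      have h3 := hMP h2
      simpa using h3
    have hxW : x ∈ W := ⟨1, Subgroup.one_mem _, by simpa using hxm⟩
    set O : Set L := {s | act s ((1 : G) • x) ∈ W} with hO
    set O' : Set L := {s | act s ((1 : G) • y) ∈ W} with hO'
    have hc1 : ∀ z : X, Continuous fun s => act s ((1 : G) • z) := fun z =>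
      hcont.comp (continuous_id.prodMk continuous_const)
    have hO1 : O ∈ 𝓝 (1 : L) := by
      apply ((hWo n m).preimage (hc1 x)).mem_nhds
      change act 1 ((1 : G) • x) ∈ W
      rw [one_smul, hone]
      exact hxW
    have hO'1 : O'ᶜ ∈ 𝓝 (1 : L) := by
      have h2 : (fun s => act s ((1 : G) • y)) ⁻¹' B ∈ 𝓝 (1 : L) := by
        apply (hB.preimage (hc1 y)).mem_nhds
        change act 1 ((1 : G) • y) ∈ B
        rw [one_smul, hone]
        exact hyB
      apply Filter.mem_of_superset h2
      intro s hs hs2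
      exact (disjoint_left.1 hAB) (hWA hs2) hs
    obtain ⟨ε, hε, hε'⟩ := Metric.mem_nhds_iff.1
      ((tendsto_chart he).eventually (Filter.inter_mem hO1 hO'1))
    obtain ⟨lam, hlam⟩ := exists_lamBump d hr hε
    have hsub : lBall e (lamBump d hr lam).rOut ⊆ O ∩ O'ᶜ := by
      rintro s ⟨u, hu, rfl⟩
      exact hε' (closedBall_subset_ball hlam hu)
    obtain ⟨k, hk⟩ := hrep n m 1 lam
    have h2 := hxy k
    rw [hk] at h2
    refine lBump_distinguish (μ := μ) hre (lamBump d hr lam) (lamBump_rOut_lt d hr lam)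
      (O := O) (O' := O') (fun s hs => (hsub hs).1) ?_ h2
    rw [disjoint_left]
    exact fun s hs => (hsub hs).2

end Pool.Agent.H11.VP
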