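import Mathlib

/-!
Functions whose differentials are combinations of independent ones are locally constant on the
fibres.
-/

namespace Pool.Agent.H11.VP

open Set Topology

/-- Independent functionals have a jointly surjective evaluation map. -/
theorem lfiber_range_pi_eq_top {d r : ℕ} (L : Fin r → ((Fin d → ℝ) →L[ℝ] ℝ))
    (hli : LinearIndependent ℝ L) : (ContinuousLinearMap.pi L).range = ⊤ := by
  by_contra h
  obtain ⟨f, hf0, hf⟩ := Submodule.exists_le_ker_of_lt_top _ (lt_top_iff_ne_top.2 h)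
  apply hf0
  have hsum : ∀ v : Fin r → ℝ, f v = ∑ i, f (Pi.single i 1) * v i := by
    intro v
    conv_lhs => rw [pi_eq_sum_univ' v]
    rw [map_sum]
    refine Finset.sum_congr rfl fun i _ => ?_
    rw [map_smul, smul_eq_mul, mul_comm]
  have hz : ∑ i, f (Pi.single i 1) • L i = 0 := by
    ext1 t
    have h1 : f (ContinuousLinearMap.pi L t) = 0 := by
      have : (ContinuousLinearMap.pi L t) ∈ (ContinuousLinearMap.pi L).range := ⟨t, rfl⟩
      exact hf this
    rw [hsum] at h1
    simpa using h1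
  have hc := Fintype.linearIndependent_iff.1 hli _ hz
  ext i
  simpa using hc i

/-- Let `u j` be continuously differentiable near `0`, let the differentials of the `u (k i)` at `0`
be independent and let all differentials of the `u j` be combinations of the ones of the `u (k i)`
near `0`. Then near `0` all `u j` are constant on the fibre of `0` of the map
`(u (k i))_i`. -/
theorem eventually_fiber_constant {d r : ℕ} (u : ℕ → (Fin d → ℝ) → ℝ)
    (hu : ∃ U ∈ 𝓝 (0 : Fin d → ℝ), ∀ t ∈ U, ∀ j, ContDiffAt ℝ 1 (u j) t) (k : Fin r → ℕ)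
    (hli : LinearIndependent ℝ fun i => fderiv ℝ (u (k i)) 0)
    (hspan : ∀ᶠ t in 𝓝 (0 : Fin d → ℝ), ∀ j,
      fderiv ℝ (u j) t ∈ Submodule.span ℝ (range fun i => fderiv ℝ (u (k i)) t)) :
    ∀ᶠ t in 𝓝 (0 : Fin d → ℝ), (∀ i, u (k i) t = u (k i) 0) → ∀ j, u j t = u j 0 := by
  obtain ⟨U, hU0, hU⟩ := hu
  set F : (Fin d → ℝ) → (Fin r → ℝ) := fun t i => u (k i) t with hF
  have hFc : ContDiffAt ℝ 1 F 0 := contDiffAt_pi.2 fun i => hU 0 (mem_of_mem_nhds hU0) (k i)
  set F' : (Fin d → ℝ) →L[ℝ] (Fin r → ℝ) :=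
    ContinuousLinearMap.pi fun i => fderiv ℝ (u (k i)) 0 with hF'
  have hs : HasStrictFDerivAt F F' 0 := by
    rw [hF']
    refine hasStrictFDerivAt_pi.2 fun i => ?_
    exact (hU 0 (mem_of_mem_nhds hU0) (k i)).hasStrictFDerivAt one_ne_zero
  have hr : F'.range = ⊤ := lfiber_range_pi_eq_top _ hli
  have hker : F'.ker.ClosedComplemented :=
    ContinuousLinearMap.ker_closedComplemented_of_finiteDimensional_range F'
  set φ := HasStrictFDerivAt.implicitFunctionDataOfComplemented F F' hs hr hker with hφ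
  have hpt : φ.pt = 0 := rfl
  have hleft : φ.leftFun = F := rfl
  have hright0 : φ.rightFun 0 = 0 := by
    show Classical.choose hker (0 - 0) = 0
    simp
  have hprod : φ.prodFun φ.pt = (F 0, 0) := by
    rw [ImplicitFunctionData.prodFun_apply, hpt, hleft, hright0]
  have hrc : ContDiffAt ℝ 1 φ.rightFun φ.pt := by
    show ContDiffAt ℝ 1 (fun x => Classical.choose hker (x - 0)) 0
    fun_prop
  have hg : ContDiffAt ℝ 1 φ.implicitFunction.uncurry (F 0, 0) := by
    rw [← hprod]
    exact ImplicitFunctionData.contDiffAt_implicitFunction hFc hrc one_ne_zero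
  set G : F'.ker → (Fin d → ℝ) := fun b => φ.implicitFunction (F 0) b with hG
  have hG0 : G 0 = 0 := by
    have := φ.implicitFunction_apply_image.self_of_nhds
    rw [hpt, hleft, hright0] at this
    exact this
  have hGc : ContDiffAt ℝ 1 G 0 := by
    have h1 : ContDiffAt ℝ 1 (fun b : F'.ker => ((F 0, b) : (Fin r → ℝ) × F'.ker)) 0 := by
      fun_prop
    have h2 : ContDiffAt ℝ 1 (φ.implicitFunction.uncurry ∘
        fun b : F'.ker => ((F 0, b) : (Fin r → ℝ) × F'.ker)) 0 :=
      ContDiffAt.comp (0 : F'.ker) hg h1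
    exact h2
  -- the three local facts
  have e1 : ∀ᶠ b in 𝓝 (0 : F'.ker), DifferentiableAt ℝ G b := by
    have := hGc.eventually (by simp)
    exact this.mono fun b hb => hb.differentiableAt one_ne_zero
  have e2 : ∀ᶠ b in 𝓝 (0 : F'.ker), F (G b) = F 0 := by
    have h1 := φ.leftFun_implicitFunction
    rw [hprod] at h1
    have h2 : Filter.Tendsto (fun b : F'.ker => ((F 0, b) : (Fin r → ℝ) × F'.ker)) (𝓝 0)
        (𝓝 (F 0, 0)) := by
      have : Continuous (fun b : F'.ker => ((F 0, b) : (Fin r → ℝ) × F'.ker)) := by fun_prop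
      exact this.tendsto 0
    exact h2.eventually h1
  have e3 : ∀ᶠ b in 𝓝 (0 : F'.ker), (G b ∈ U) ∧ ∀ j,
      fderiv ℝ (u j) (G b) ∈ Submodule.span ℝ (range fun i => fderiv ℝ (u (k i)) (G b)) := by
    have h1 : Filter.Tendsto G (𝓝 0) (𝓝 (G 0)) := hGc.continuousAt
    rw [hG0] at h1
    exact h1.eventually ((Filter.eventually_of_mem hU0 fun t ht => ht).and hspan)
  obtain ⟨ε, hε, hball⟩ := Metric.eventually_nhds_iff_ball.1 (e1.and (e2.and e3))
  have hconst : ∀ b ∈ Metric.ball (0 : F'.ker) ε, ∀ j, u j (G b) = u j 0 := by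
    intro b hb j
    have hd : ∀ c ∈ Metric.ball (0 : F'.ker) ε, ∀ i, DifferentiableAt ℝ (u i) (G c) :=
      fun c hc i => (hU _ (hball c hc).2.2.1 i).differentiableAt one_ne_zero
    have hzero : ∀ c ∈ Metric.ball (0 : F'.ker) ε, HasFDerivAt (fun c => u j (G c))
        (0 : F'.ker →L[ℝ] ℝ) c := by
      intro c hc
      have hcomp : ∀ i, HasFDerivAt (fun c => u i (G c))
          ((fderiv ℝ (u i) (G c)).comp (fderiv ℝ G c)) c := fun i =>
        HasFDerivAt.comp c (hd c hc i).hasFDerivAt (hball c hc).1.hasFDerivAt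
      have hk : ∀ i, (fderiv ℝ (u (k i)) (G c)).comp (fderiv ℝ G c) = 0 := by
        intro i
        have h1 : (fun c => u (k i) (G c)) =ᶠ[𝓝 c] fun _ => u (k i) 0 := by
          filter_upwards [Metric.isOpen_ball.mem_nhds hc] with c' hc'
          exact congrFun (hball c' hc').2.1 i
        have h2 : HasFDerivAt (fun c => u (k i) (G c)) (0 : F'.ker →L[ℝ] ℝ) c :=
          (hasFDerivAt_const _ c).congr_of_eventuallyEq h1
        exact (hcomp (k i)).unique h2
      have hj : (fderiv ℝ (u j) (G c)).comp (fderiv ℝ G c) = 0 := by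
        have h1 := (hball c hc).2.2.2 j
        refine Submodule.span_induction (p := fun L _ => L.comp (fderiv ℝ G c) = 0) ?_ ?_ ?_ ?_ h1
        · rintro _ ⟨i, rfl⟩
          exact hk i
        · simp
        · intro x y _ _ hx hy
          rw [ContinuousLinearMap.add_comp, hx, hy, add_zero]
        · intro a x _ hx
          rw [ContinuousLinearMap.smul_comp, hx, smul_zero]
      have := hcomp j
      rwa [hj] at this
    have h0 : (0 : F'.ker) ∈ Metric.ball (0 : F'.ker) ε := Metric.mem_ball_self hε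
    have := (convex_ball (0 : F'.ker) ε).is_const_of_fderivWithin_eq_zero (𝕜 := ℝ)
      (f := fun c => u j (G c))
      (fun c hc => (hzero c hc).differentiableAt.differentiableWithinAt)
      (fun c hc => by
        rw [(hzero c hc).hasFDerivWithinAt.fderivWithin
          (Metric.isOpen_ball.uniqueDiffWithinAt hc)]) hb h0
    rw [hG0] at this
    exact this
  have f1 : ∀ᶠ t in 𝓝 (0 : Fin d → ℝ), φ.rightFun t ∈ Metric.ball (0 : F'.ker) ε := by
    have h1 : Filter.Tendsto φ.rightFun (𝓝 0) (𝓝 (φ.rightFun 0)) := hrc.continuousAt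
    rw [hright0] at h1
    exact h1.eventually (Metric.ball_mem_nhds _ hε)
  have f2 := φ.implicitFunction_apply_image
  rw [hpt, hleft] at f2
  filter_upwards [f1, f2] with t ht1 ht2 hfib j
  have hFt : F t = F 0 := funext hfib
  rw [hFt] at ht2
  have := hconst _ ht1 j
  rw [show G (φ.rightFun t) = t from ht2] at this
  exact this

end Pool.Agent.H11.VP
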