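import Mathlib

/-!
Borel selection of a point which is unique, general parameter space.
-/

namespace Pool.Agent.H11.VP

open Set Topology

/-- Functions measurable in `x` and continuous in `l`: having a zero in a compact set is a measurable
condition on `x`. -/
theorem measurableSet_exists_zero_gen {X Y : Type} [MeasurableSpace X] [TopologicalSpace Y]
    [SecondCountableTopology Y] {N : Set Y} (hN : IsCompact N) (u : X → Y → ℝ) (hu : ∀ l, Measurable fun x => u x l)
    (hc : ∀ x, Continuous (u x)) : MeasurableSet {x | ∃ l ∈ N, u x l = 0} := by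
  obtain ⟨D, hDN, hDc, hDd⟩ : ∃ D ⊆ N, D.Countable ∧ N ⊆ closure D := by
    obtain ⟨D, hDc, hDd⟩ := TopologicalSpace.exists_countable_dense N
    refine ⟨Subtype.val '' D, by rintro _ ⟨a, -, rfl⟩; exact a.2, hDc.image _, fun l hl => ?_⟩
    have h1 := hDd ⟨l, hl⟩
    exact image_closure_subset_closure_image continuous_subtype_val ⟨⟨l, hl⟩, h1, rfl⟩
  have key : {x | ∃ l ∈ N, u x l = 0} = ⋂ n : ℕ, ⋃ q ∈ D, {x | |u x q| < 1 / ((n : ℝ) + 1)} := by
    ext x
    simp only [mem_ofPred_eq, mem_iInter, mem_iUnion, exists_prop]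
    constructor
    · rintro ⟨l, hl, h0⟩ n
      have hopen : IsOpen {l | |u x l| < 1 / ((n : ℝ) + 1)} :=
        isOpen_lt (hc x).abs continuous_const
      have hlm : l ∈ {l | |u x l| < 1 / ((n : ℝ) + 1)} := by
        show |u x l| < _
        rw [h0, abs_zero]
        positivity
      obtain ⟨q, hq1, hq2⟩ := mem_closure_iff.1 (hDd hl) _ hopen hlm
      exact ⟨q, hq2, hq1⟩
    · intro h
      obtain ⟨q₀, hq₀, -⟩ := h 0
      obtain ⟨l, hl, hmin⟩ := hN.exists_isMinOn ⟨q₀, hDN hq₀⟩ (f := fun l => |u x l|)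
        (hc x).abs.continuousOn
      refine ⟨l, hl, ?_⟩
      by_contra hne0
      obtain ⟨n, hn⟩ := exists_nat_one_div_lt (abs_pos.2 hne0)
      obtain ⟨q, hq, hq'⟩ := h n
      have h1 : |u x l| ≤ |u x q| := hmin (hDN hq)
      linarith
  rw [key]
  exact MeasurableSet.iInter fun n => MeasurableSet.biUnion hDc fun q _ =>
    measurableSet_lt (hu q).abs measurable_const

/-- The point `act l x`, `l` in the compact set `N` a solution of the equations `f i x l = ρ i`, is a
Borel function of `x` where it is unique. -/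
theorem exists_measurable_point_gen {X Y : Type} [TopologicalSpace X] [PolishSpace X]
    [MeasurableSpace X] [BorelSpace X] [TopologicalSpace Y] [SecondCountableTopology Y]
    {r : ℕ} (act : Y → X → X) (hcont : Continuous fun p : Y × X => act p.1 p.2)
    (f : Fin r → X → Y → ℝ) (hfm : ∀ i l, Measurable fun x => f i x l)
    (hfc : ∀ i x, Continuous (f i x)) (ρ : Fin r → ℝ) {N : Set Y} (hN : IsCompact N) :
    ∃ T : X → X, Measurable T ∧ ∀ x, ∀ l ∈ N, (∀ i, f i x l = ρ i) →
      (∀ l' ∈ N, (∀ i, f i x l' = ρ i) → act l' x = act l x) → T x = act l x := by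
  classical
  rcases isEmpty_or_nonempty X with hX | hX
  · exact ⟨id, measurable_id, fun x => isEmptyElim x⟩
  let := TopologicalSpace.upgradeIsCompletelyMetrizable X
  let v : X → Y → ℝ := fun x l => ∑ i, |f i x l - ρ i|
  have hvn : ∀ x l, 0 ≤ v x l := fun x l => Finset.sum_nonneg fun i _ => abs_nonneg _
  have hv0 : ∀ x l, v x l = 0 ↔ ∀ i, f i x l = ρ i := by
    intro x l
    show ∑ i, |f i x l - ρ i| = 0 ↔ _
    rw [Finset.sum_eq_zero_iff_of_nonneg fun i _ => abs_nonneg _]
    simp [sub_eq_zero]
  have hact : ∀ l, Continuous (act l) := fun l =>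
    hcont.comp (continuous_const.prodMk continuous_id)
  have hact' : ∀ x, Continuous fun l => act l x := fun x =>
    hcont.comp (continuous_id.prodMk continuous_const)
  let P : X → Set X := fun x => {y | ∃ l ∈ N, (∀ i, f i x l = ρ i) ∧ act l x = y}
  have hmeas : ∀ C : Set X, IsClosed C → MeasurableSet {x | (P x ∩ C).Nonempty} := by
    intro C hC
    rcases C.eq_empty_or_nonempty with rfl | hne
    · simp
    have h1 := measurableSet_exists_zero_gen hN (fun x l => v x l + Metric.infDist (act l x) C)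
      (fun l => (Finset.measurable_fun_sum _ fun i _ => ((hfm i l).sub measurable_const).abs).add
        ((Metric.continuous_infDist_pt C).comp (hact l)).measurable)
      (fun x => (continuous_finset_sum _ fun i _ => ((hfc i x).sub continuous_const).abs).add
        ((Metric.continuous_infDist_pt C).comp (hact' x)))
    have h2 : {x | (P x ∩ C).Nonempty} =
        {x | ∃ l ∈ N, v x l + Metric.infDist (act l x) C = 0} := by
      ext x
      constructor
      · rintro ⟨_, ⟨l, hl, hfl, rfl⟩, hC'⟩
        refine ⟨l, hl, ?_⟩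
        rw [(hv0 x l).2 hfl, (hC.mem_iff_infDist_zero hne).1 hC', add_zero]
      · rintro ⟨l, hl, h0⟩
        have h3 := hvn x l
        have h4 : 0 ≤ Metric.infDist (act l x) C := Metric.infDist_nonneg
        refine ⟨act l x, ⟨l, hl, (hv0 x l).1 (by linarith), rfl⟩, ?_⟩
        rw [hC.mem_iff_infDist_zero hne]
        linarith
    rw [h2]
    exact h1
  let e : ℕ → X := TopologicalSpace.denseSeq X
  have he : DenseRange e := TopologicalSpace.denseRange_denseSeq X
  let Cb : ℕ → ℕ → Set X := fun n i => Metric.closedBall (e i) (1 / ((n : ℝ) + 1))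
  let Q : ℕ → ℕ → ℕ → Set X := fun n i j =>
    if Disjoint (Cb n i) (Cb n j) then
      ({x | (P x ∩ Cb n i).Nonempty} ∩ {x | (P x ∩ Cb n j).Nonempty})ᶜ else univ
  let S : Set X := {x | (P x ∩ univ).Nonempty} ∩ ⋂ n, ⋂ i, ⋂ j, Q n i j
  have hS : MeasurableSet S := by
    refine (hmeas univ isClosed_univ).inter (MeasurableSet.iInter fun n =>
      MeasurableSet.iInter fun i => MeasurableSet.iInter fun j => ?_)
    show MeasurableSet (Q n i j)
    by_cases hd : Disjoint (Cb n i) (Cb n j)
    · simp only [Q, if_pos hd]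
      exact ((hmeas _ Metric.isClosed_closedBall).inter
        (hmeas _ Metric.isClosed_closedBall)).compl
    · simp only [Q, if_neg hd]
      exact MeasurableSet.univ
  have hSs : ∀ x ∈ S, ∀ a ∈ P x, ∀ b ∈ P x, a = b := by
    rintro x ⟨-, hx⟩ a ha b hb
    by_contra hab
    have hd : 0 < dist a b := dist_pos.2 hab
    obtain ⟨n, hn⟩ := exists_nat_one_div_lt (show 0 < dist a b / 4 by positivity)
    have hn0 : (0 : ℝ) < 1 / ((n : ℝ) + 1) := by positivity
    obtain ⟨i, hi⟩ := he.exists_dist_lt a hn0
    obtain ⟨j, hj⟩ := he.exists_dist_lt b hn0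
    have hdis : Disjoint (Cb n i) (Cb n j) := by
      refine Metric.closedBall_disjoint_closedBall ?_
      have h1 : dist a b ≤ dist a (e i) + dist (e i) (e j) + dist (e j) b :=
        dist_triangle4 _ _ _ _
      rw [dist_comm (e j) b] at h1
      linarith
    have h1 := mem_iInter.1 (mem_iInter.1 (mem_iInter.1 hx n) i) j
    simp only [Q, if_pos hdis] at h1
    exact h1 ⟨⟨a, ha, by simpa [Cb] using hi.le⟩, ⟨b, hb, by simpa [Cb] using hj.le⟩⟩
  let T : X → X := fun x => if h : x ∈ S then h.1.some else x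
  have hT1 : ∀ x ∈ S, T x ∈ P x := by
    intro x hx
    simp only [T, dif_pos hx]
    exact hx.1.some_mem.1
  have hT2 : ∀ x ∉ S, T x = x := by
    intro x hx
    simp only [T, dif_neg hx]
  refine ⟨T, ?_, ?_⟩
  · refine measurable_of_isClosed fun C hC => ?_
    have : T ⁻¹' C = (S ∩ {x | (P x ∩ C).Nonempty}) ∪ (Sᶜ ∩ C) := by
      ext x
      by_cases hx : x ∈ S
      · simp only [mem_preimage, mem_union, mem_inter_iff, hx, true_and, mem_compl_iff,
          not_true_eq_false, false_and, or_false]
        constructor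
        · exact fun h => ⟨T x, hT1 x hx, h⟩
        · rintro ⟨y, hy, hyC⟩
          rwa [hSs x hx _ (hT1 x hx) _ hy]
      · simp [hx, hT2 x hx]
    rw [this]
    exact (hS.inter (hmeas C hC)).union (hS.compl.inter hC.measurableSet)
  · intro x l hl hfl huniq
    have hPx : ∀ y ∈ P x, y = act l x := by
      rintro _ ⟨l', hl', hfl', rfl⟩
      exact huniq l' hl' hfl'
    have hxS : x ∈ S := by
      refine ⟨⟨act l x, ⟨l, hl, hfl, rfl⟩, mem_univ _⟩, ?_⟩
      refine mem_iInter.2 fun n => mem_iInter.2 fun i => mem_iInter.2 fun j => ?_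
      by_cases hd : Disjoint (Cb n i) (Cb n j)
      · simp only [Q, if_pos hd]
        rintro ⟨⟨y, hy, hyi⟩, ⟨z, hz, hzj⟩⟩
        rw [hPx y hy] at hyi
        rw [hPx z hz] at hzj
        exact (Set.disjoint_left.1 hd) hyi hzj
      · simp only [Q, if_neg hd]
        exact mem_univ _
    exact hPx _ (hT1 x hxS)

end Pool.Agent.H11.VP
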