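import Mathlib

/-!
Rational values near a point with independent differentials, local version.
-/

namespace Pool.Agent.H11.VP

open Set Topology

/-- Independence of the differentials is an open condition. -/
theorem eventually_linearIndependent {d r : ℕ} (f : Fin r → (Fin d → ℝ) → ℝ) (l₀ : Fin d → ℝ)
    (hf : ∀ i, ContDiffAt ℝ 1 (f i) l₀)
    (hli : LinearIndependent ℝ fun i => fderiv ℝ (f i) l₀) :
    ∀ᶠ l in 𝓝 l₀, LinearIndependent ℝ fun i => fderiv ℝ (f i) l := by
  have hc : ContinuousAt (fun l => fun i => fderiv ℝ (f i) l) l₀ := by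
    rw [continuousAt_pi]
    intro i
    exact ((hf i).fderiv_right (m := 0) (by norm_num)).continuousAt
  have ho : IsOpen {g : Fin r → ((Fin d → ℝ) →L[ℝ] ℝ) | LinearIndependent ℝ g} :=
    isOpen_setOfPred_linearIndependent
  exact hc.eventually (ho.mem_nhds hli)

/-- Functions with independent differentials at a point have, arbitrarily near, simultaneously
rational values and independent differentials. -/
theorem exists_rational_values_mem {d r : ℕ} (f : Fin r → (Fin d → ℝ) → ℝ) (l₀ : Fin d → ℝ)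
    (hf : ∀ i, ContDiffAt ℝ 1 (f i) l₀) (hli : LinearIndependent ℝ fun i => fderiv ℝ (f i) l₀)
    {U : Set (Fin d → ℝ)} (hU : U ∈ 𝓝 l₀) :
    ∃ l ∈ U, (∀ i, ∃ q : ℚ, f i l = q) ∧ LinearIndependent ℝ fun i => fderiv ℝ (f i) l := by
  have hstrict : HasStrictFDerivAt (fun l => fun i => f i l)
      (ContinuousLinearMap.pi fun i => fderiv ℝ (f i) l₀) l₀ :=
    hasStrictFDerivAt_pi.2 fun i => (hf i).hasStrictFDerivAt one_ne_zero
  have hsurj : ((ContinuousLinearMap.pi fun i => fderiv ℝ (f i) l₀) :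
      (Fin d → ℝ) →L[ℝ] (Fin r → ℝ)).range = ⊤ := by
    rw [LinearMap.range_eq_top, ← LinearMap.dualMap_injective_iff, ← LinearMap.ker_eq_bot,
      LinearMap.ker_eq_bot']
    intro g hg
    have h1 : ∑ i, g (fun j => if i = j then 1 else 0) • fderiv ℝ (f i) l₀ = 0 := by
      ext v
      have h2 : g (fun i => fderiv ℝ (f i) l₀ v) = 0 := LinearMap.congr_fun hg v
      rw [LinearMap.pi_apply_eq_sum_univ g] at h2
      rw [sum_apply]
      refine Eq.trans (Finset.sum_congr rfl fun i _ => ?_) h2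
      exact mul_comm _ _
    have h3 := Fintype.linearIndependent_iff.1 hli _ h1
    refine LinearMap.ext fun w => ?_
    rw [LinearMap.pi_apply_eq_sum_univ g w, LinearMap.zero_apply]
    exact Finset.sum_eq_zero fun i _ => by rw [h3 i, smul_zero]
  have hmap := hstrict.map_nhds_eq_of_surj hsurj
  have hV : U ∩ {l | LinearIndependent ℝ fun i => fderiv ℝ (f i) l} ∈ 𝓝 l₀ :=
    Filter.inter_mem hU (eventually_linearIndependent f l₀ hf hli)
  have hW : (fun l => fun i => f i l) '' (U ∩ {l | LinearIndependent ℝ fun i => fderiv ℝ (f i) l}) ∈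
      𝓝 (fun i => f i l₀) := by
    rw [← hmap]
    exact Filter.image_mem_map hV
  have hd : DenseRange fun q : Fin r → ℚ => fun i => (q i : ℝ) :=
    DenseRange.piMap fun _ => Rat.denseRange_cast
  obtain ⟨q, hq⟩ := hd.exists_mem_open isOpen_interior ⟨_, mem_interior_iff_mem_nhds.2 hW⟩
  obtain ⟨l, ⟨hlU, hl⟩, hlq⟩ := interior_subset hq
  exact ⟨l, hlU, fun i => ⟨q i, congrFun hlq i⟩, hl⟩

end Pool.Agent.H11.VP
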