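import Mathlib

/-!
Measurability of derivatives and of linear independence.
-/

namespace Pool.Agent.H11.VP

open Set Topology

/-- Functions measurable in `x` and differentiable in `l`: the derivative at `0` is measurable in
`x`. -/
theorem measurable_fderiv_apply {X : Type} [MeasurableSpace X] {d : ℕ}
    (u : X → (Fin d → ℝ) → ℝ) (hu : ∀ l, Measurable fun x => u x l)
    (hd : ∀ x, DifferentiableAt ℝ (u x) 0) (v : Fin d → ℝ) :
    Measurable fun x => fderiv ℝ (u x) 0 v := by
  have hc : Filter.Tendsto (fun n : ℕ => ‖((n : ℝ) + 1)‖) Filter.atTop Filter.atTop := by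
    have h1 : Filter.Tendsto (fun n : ℕ => (n : ℝ) + 1) Filter.atTop Filter.atTop :=
      Filter.tendsto_atTop_add_const_right _ _ tendsto_natCast_atTop_atTop
    exact tendsto_norm_atTop_atTop.comp h1
  refine measurable_of_tendsto_metrizable
    (f := fun (n : ℕ) x => ((n : ℝ) + 1) • (u x (0 + ((n : ℝ) + 1)⁻¹ • v) - u x 0)) (fun n => ?_) ?_
  · simp only [smul_eq_mul]
    exact ((hu _).sub (hu _)).const_mul _
  · rw [tendsto_pi_nhds]
    intro x
    exact (hd x).hasFDerivAt.lim v hc

/-- Linear independence of functionals depending measurably on `x` is a measurable condition. -/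
theorem measurableSet_linearIndependent {X : Type} [MeasurableSpace X] {d r : ℕ}
    (D : Fin r → X → ((Fin d → ℝ) →L[ℝ] ℝ)) (hD : ∀ i v, Measurable fun x => D i x v) :
    MeasurableSet {x | LinearIndependent ℝ fun i => D i x} := by
  let L : ((Fin d → ℝ) →L[ℝ] ℝ) →ₗ[ℝ] (Fin d → ℝ) :=
    { toFun := fun f j => f (Pi.single j 1)
      map_add' := fun f g => rfl
      map_smul' := fun c f => rfl }
  have hL : LinearMap.ker L = ⊥ := by
    rw [LinearMap.ker_eq_bot']
    intro f hf
    have h0 : (f : (Fin d → ℝ) →ₗ[ℝ] ℝ) = 0 :=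
      LinearMap.pi_ext' fun j => LinearMap.ext_ring (congrFun hf j)
    exact ContinuousLinearMap.coe_injective h0
  have h1 : {x | LinearIndependent ℝ fun i => D i x} =
      (fun x => fun i => L (D i x)) ⁻¹' {f : Fin r → (Fin d → ℝ) | LinearIndependent ℝ f} := by
    ext x
    simp only [mem_ofPred_eq, mem_preimage]
    exact (LinearMap.linearIndependent_iff L hL (v := fun i => D i x)).symm
  rw [h1]
  have h2 : Measurable (fun x => fun i => L (D i x)) := by
    rw [measurable_pi_iff]
    intro i
    rw [measurable_pi_iff]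
    intro j
    exact hD i _
  exact h2 isOpen_setOfPred_linearIndependent.measurableSet

end Pool.Agent.H11.VP
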