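import Pool.Agent.H11.VP.LDefs
import Pool.Agent.H11.VP.LChain
import Pool.Agent.H11.VP.LFiber
import Pool.Agent.H11.VP.LOpen
import Pool.Agent.H11.VP.LMeas
import Pool.Agent.H11.VP.SBor

/-!
The Borel set meeting every orbit in countably many classes, and its Borel enumeration, for locally
Lie groups.
-/

set_option linter.unusedSectionVars false

namespace Pool.Agent.H11.VP

open Set Topology

section

variable {L X : Type} [Group L] [TopologicalSpace L] (act : L → X → X)
  {d : ℕ} (e : (Fin d → ℝ) → L) (h : ℕ → X → ℝ)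

/-- The differential at `0` of `t ↦ h j (act (e t) y)`. -/
noncomputable def dif (y : X) (j : ℕ) : (Fin d → ℝ) →L[ℝ] ℝ :=
  fderiv ℝ (fun t => h j (act (e t) y)) 0

/-- Somewhere on the orbit of `x` there are `r` independent differentials. -/
def Rk (r : ℕ) (x : X) : Prop :=
  ∃ l : L, ∃ κ : Fin r → ℕ, LinearIndependent ℝ fun i => dif act e h (act l x) (κ i)

end

/-- Independence after composition with a linear map on the right. -/
theorem linearIndependent_of_comp_right {d r : ℕ} (M : Fin r → ((Fin d → ℝ) →L[ℝ] ℝ))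
    (S : (Fin d → ℝ) →L[ℝ] (Fin d → ℝ)) (hli : LinearIndependent ℝ fun i => (M i).comp S) :
    LinearIndependent ℝ M := by
  let φ : ((Fin d → ℝ) →L[ℝ] ℝ) →ₗ[ℝ] ((Fin d → ℝ) →L[ℝ] ℝ) :=
    { toFun := fun A => A.comp S
      map_add' := fun A B => by ext; simp
      map_smul' := fun c A => by ext; simp }
  exact LinearIndependent.of_comp φ hli

/-- Spans after composition with a linear map on the right. -/
theorem comp_mem_span {d r : ℕ} (M : Fin r → ((Fin d → ℝ) →L[ℝ] ℝ)) (A : (Fin d → ℝ) →L[ℝ] ℝ)
    (S : (Fin d → ℝ) →L[ℝ] (Fin d → ℝ)) (hA : A ∈ Submodule.span ℝ (range M)) :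
    A.comp S ∈ Submodule.span ℝ (range fun i => (M i).comp S) := by
  let φ : ((Fin d → ℝ) →L[ℝ] ℝ) →ₗ[ℝ] ((Fin d → ℝ) →L[ℝ] ℝ) :=
    { toFun := fun A => A.comp S
      map_add' := fun A B => by ext; simp
      map_smul' := fun c A => by ext; simp }
  have h1 : φ A ∈ Submodule.map φ (Submodule.span ℝ (range M)) := Submodule.mem_map_of_mem hA
  rw [Submodule.map_span, ← range_comp] at h1
  exact h1

/-- At most `d` functionals on `ℝ^d` are independent. -/
theorem card_le_of_linearIndependent {d r : ℕ} (M : Fin r → ((Fin d → ℝ) →L[ℝ] ℝ))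
    (hli : LinearIndependent ℝ M) : r ≤ d := by
  let φ : ((Fin d → ℝ) →L[ℝ] ℝ) →ₗ[ℝ] (Fin d → ℝ) :=
    { toFun := fun A i => A (Pi.single i 1)
      map_add' := fun A B => by ext; simp
      map_smul' := fun c A => by ext; simp }
  have hφ : LinearMap.ker φ = ⊥ := by
    rw [LinearMap.ker_eq_bot']
    intro A hA
    apply ContinuousLinearMap.coe_injective
    apply LinearMap.pi_ext'
    intro i
    ext
    exact congrFun hA i
  have h1 := (hli.map' φ hφ).fintype_card_le_finrank
  simpa using h1

section

variable {L X : Type} [Group L] [TopologicalSpace L] [IsTopologicalGroup L]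
  {d : ℕ} {e : OpenPartialHomeomorph (Fin d → ℝ) L}

/-- What holds at `e t` for small `t` holds at `m` for `m` near `1`. -/
theorem eventually_one_of_chart (he : LieChart L d e) {P : L → Prop}
    (hP : ∀ᶠ t in 𝓝 (0 : Fin d → ℝ), P (e t)) : ∀ᶠ m in 𝓝 (1 : L), P m := by
  have h1 : (1 : L) ∈ e.target := by
    rw [← he.map_zero]
    exact e.map_source he.zero_mem
  have h2 : e.symm 1 = 0 := by
    rw [← he.map_zero]
    exact e.left_inv he.zero_mem
  have h3 : Filter.Tendsto e.symm (𝓝 1) (𝓝 0) := by
    have := e.continuousAt_symm h1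
    rw [ContinuousAt, h2] at this
    exact this
  filter_upwards [h3.eventually hP, e.open_target.mem_nhds h1] with m hm hmt
  rwa [e.right_inv hmt] at hm

/-- What holds at `e t` for small `t` holds at `l * l₀⁻¹` for `l` near `l₀`. -/
theorem eventually_of_chart (he : LieChart L d e) {P : L → Prop}
    (hP : ∀ᶠ t in 𝓝 (0 : Fin d → ℝ), P (e t)) (l₀ : L) : ∀ᶠ l in 𝓝 l₀, P (l * l₀⁻¹) := by
  have h1 : Filter.Tendsto (fun l : L => l * l₀⁻¹) (𝓝 l₀) (𝓝 1) := by
    have h2 : Continuous fun l : L => l * l₀⁻¹ := continuous_id.mul continuous_const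
    have h3 := h2.tendsto l₀
    simpa using h3
  exact h1.eventually (eventually_one_of_chart he hP)

/-- A group with a chart is locally compact. -/
theorem locallyCompactSpace_of_chart [T2Space L] (he : LieChart L d e) :
    LocallyCompactSpace L := by
  obtain ⟨K, hK, hK0, hKs⟩ := local_compact_nhds (e.open_source.mem_nhds he.zero_mem)
  have h1 : IsCompact (e '' K) := hKs.image_of_continuousOn (e.continuousOn.mono hK0)
  have h2 : e '' K ∈ 𝓝 (e 0) := e.image_mem_nhds he.zero_mem hK
  exact h1.locallyCompactSpace_of_mem_nhds_of_group h2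

end

/-- Countably many compact sets forming small neighbourhoods. -/
theorem exists_compact_family (L : Type) [TopologicalSpace L] [SecondCountableTopology L]
    [T2Space L] [LocallyCompactSpace L] :
    ∃ N : ℕ → Set L, (∀ n, IsCompact (N n)) ∧ ∀ l, ∀ V ∈ 𝓝 l, ∃ n, l ∈ N n ∧ N n ⊆ V := by
  let 𝒩 : Set (Set L) := {S | IsCompact S ∧ ∃ B ∈ TopologicalSpace.countableBasis L, S = closure B}
  have hc : 𝒩.Countable :=
    ((TopologicalSpace.countable_countableBasis L).image closure).mono (by
      rintro S ⟨-, B, hB, rfl⟩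
      exact ⟨B, hB, rfl⟩)
  have hprop : ∀ l, ∀ V ∈ 𝓝 l, ∃ S ∈ 𝒩, l ∈ S ∧ S ⊆ V := by
    intro l V hV
    obtain ⟨K, hK, hKV, hKc⟩ := local_compact_nhds hV
    obtain ⟨B, hB, hlB, hBK⟩ := (TopologicalSpace.isBasis_countableBasis L).mem_nhds_iff.1 hK
    have h1 : closure B ⊆ K := closure_minimal hBK hKc.isClosed
    exact ⟨closure B, ⟨hKc.of_isClosed_subset isClosed_closure h1, B, hB, rfl⟩,
      subset_closure hlB, h1.trans hKV⟩
  rcases isEmpty_or_nonempty L with hL | ⟨⟨l₀⟩⟩
  · exact ⟨fun _ => ∅, fun _ => isCompact_empty, fun l => (hL.false l).elim⟩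
  · obtain ⟨S, hS, -⟩ := hprop l₀ univ Filter.univ_mem
    obtain ⟨N, hN⟩ := hc.exists_eq_range ⟨S, hS⟩
    refine ⟨N, fun n => ?_, fun l V hV => ?_⟩
    · have : N n ∈ 𝒩 := by
        rw [hN]
        exact ⟨n, rfl⟩
      exact this.1
    · obtain ⟨S, hS, hlS, hSV⟩ := hprop l V hV
      rw [hN] at hS
      obtain ⟨n, rfl⟩ := hS
      exact ⟨n, hlS, hSV⟩

section

variable {G L X : Type} [Group G]
    [Group L] [TopologicalSpace L] [IsTopologicalGroup L] [PolishSpace L]
    [TopologicalSpace X] [PolishSpace X] [MeasurableSpace X] [BorelSpace X] [MulAction G X]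
    {act : L → X → X} {d : ℕ} {e : OpenPartialHomeomorph (Fin d → ℝ) L} {h : ℕ → X → ℝ}

/-- Independence at a point of the orbit is an open condition. -/
theorem rk_open (hmul : ∀ s t x, act (s * t) x = act s (act t x)) (he : LieChart L d e)
    (hd : ∀ k x, ContDiffAt ℝ 1 (fun t => h k (act (e t) x)) 0)
    {r : ℕ} (κ : Fin r → ℕ) (x : X) (l₀ : L)
    (hli : LinearIndependent ℝ fun i => dif act e h (act l₀ x) (κ i)) :
    ∀ᶠ l in 𝓝 l₀, LinearIndependent ℝ fun i => dif act e h (act l x) (κ i) := by
  obtain ⟨U, hU, hchain⟩ := exists_chain act hmul he hd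
  have h1 := eventually_linearIndependent
    (fun (i : Fin r) t => h (κ i) (act (e t) (act l₀ x))) 0 (fun i => hd _ _) hli
  have h2 : ∀ᶠ t in 𝓝 (0 : Fin d → ℝ),
      LinearIndependent ℝ fun i => dif act e h (act (e t * l₀) x) (κ i) := by
    filter_upwards [h1, hU] with t ht htU
    obtain ⟨S, hS⟩ := hchain t htU
    rw [hmul]
    apply linearIndependent_of_comp_right _ S
    convert ht using 2 with i
    exact ((hS (κ i) (act l₀ x)).2).symm
  have h3 := eventually_of_chart he (P := fun m =>
    LinearIndependent ℝ fun i => dif act e h (act (m * l₀) x) (κ i)) h2 l₀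
  filter_upwards [h3] with l hl
  simpa using hl

theorem rk_zero (x : X) : Rk act e h 0 x :=
  ⟨1, Fin.elim0, linearIndependent_empty_type⟩

theorem rk_le {r : ℕ} {x : X} (hr : Rk act e h r x) : r ≤ d := by
  obtain ⟨l, κ, hli⟩ := hr
  exact card_le_of_linearIndependent _ hli

theorem rk_act (hmul : ∀ s t x, act (s * t) x = act s (act t x)) {r : ℕ} (l : L) (x : X) :
    Rk act e h r (act l x) ↔ Rk act e h r x := by
  constructor
  · rintro ⟨m, κ, hli⟩
    refine ⟨m * l, κ, ?_⟩
    rwa [hmul]
  · rintro ⟨m, κ, hli⟩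
    refine ⟨m * l⁻¹, κ, ?_⟩
    rwa [← hmul, inv_mul_cancel_right]

theorem dif_smul (hcomm : ∀ (g : G) s x, g • act s x = act s (g • x)) (g : G) {j j' : ℕ}
    (hj : ∀ x, h j (g • x) = h j' x) (y : X) : dif act e h (g • y) j = dif act e h y j' := by
  unfold dif
  congr 1
  funext t
  rw [← hcomm, hj]

theorem rk_smul_le (hcomm : ∀ (g : G) s x, g • act s x = act s (g • x))
    (hst : ∀ (g : G) k, ∃ j, ∀ x, h k (g • x) = h j x) {r : ℕ} (g : G) (x : X)
    (hr : Rk act e h r (g • x)) : Rk act e h r x := by
  obtain ⟨l, κ, hli⟩ := hr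
  choose κ' hκ' using fun i => hst g (κ i)
  refine ⟨l, κ', ?_⟩
  convert hli using 2 with i
  rw [← hcomm]
  exact (dif_smul hcomm g (hκ' i) _).symm

/-- The set. -/
def sect (act : L → X → X) (e : OpenPartialHomeomorph (Fin d → ℝ) L) (h : ℕ → X → ℝ) : Set X :=
  {x | ∃ r, ∃ κ : Fin r → ℕ, (∀ i, ∃ q : ℚ, h (κ i) x = q) ∧
    (LinearIndependent ℝ fun i => dif act e h x (κ i)) ∧ ¬ Rk act e h (r + 1) x}

theorem measurable_dif (hcont : Continuous fun p : L × X => act p.1 p.2)
    (hm : ∀ k, Measurable (h k)) (hd : ∀ k x, ContDiffAt ℝ 1 (fun t => h k (act (e t) x)) 0)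
    (l : L) (j : ℕ) (v : Fin d → ℝ) : Measurable fun x => dif act e h (act l x) j v := by
  apply measurable_fderiv_apply (fun x t => h j (act (e t) (act l x)))
  · intro t
    have h1 : Continuous fun x => act (e t) (act l x) :=
      (hcont.comp (Continuous.prodMk_right (e t))).comp (hcont.comp (Continuous.prodMk_right l))
    exact (hm j).comp h1.measurable
  · intro x
    exact (hd j (act l x)).differentiableAt (by norm_num)

theorem measurableSet_rk (hcont : Continuous fun p : L × X => act p.1 p.2)
    (hmul : ∀ s t x, act (s * t) x = act s (act t x)) (he : LieChart L d e)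
    (hm : ∀ k, Measurable (h k)) (hd : ∀ k x, ContDiffAt ℝ 1 (fun t => h k (act (e t) x)) 0)
    (r : ℕ) : MeasurableSet {x | Rk act e h r x} := by
  have h1 : {x | Rk act e h r x} = ⋃ κ : Fin r → ℕ, ⋃ n : ℕ,
      {x | LinearIndependent ℝ fun i =>
        dif act e h (act (TopologicalSpace.denseSeq L n) x) (κ i)} := by
    ext x
    simp only [mem_iUnion]
    constructor
    · rintro ⟨l₀, κ, hli⟩
      have h2 := rk_open hmul he hd κ x l₀ hli
      obtain ⟨l, ⟨n, rfl⟩, hl⟩ := (TopologicalSpace.denseRange_denseSeq L).inter_nhds_nonempty h2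
      exact ⟨κ, n, hl⟩
    · rintro ⟨κ, n, hli⟩
      exact ⟨_, κ, hli⟩
  rw [h1]
  refine MeasurableSet.iUnion fun κ => MeasurableSet.iUnion fun n => ?_
  exact measurableSet_linearIndependent _ fun i v => measurable_dif hcont hm hd _ _ v

end

/-- From a family of functions: a Borel invariant set meeting all orbits of the locally Lie group
and countably many Borel maps enumerating the points of the orbit in it. -/
theorem exists_section_lie {G L X : Type} [Group G]
    [Group L] [TopologicalSpace L] [IsTopologicalGroup L] [PolishSpace L]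
    [TopologicalSpace X] [PolishSpace X] [MeasurableSpace X] [BorelSpace X] [MulAction G X]
    (act : L → X → X) (hcont : Continuous fun p : L × X => act p.1 p.2)
    (hone : ∀ x, act 1 x = x) (hmul : ∀ s t x, act (s * t) x = act s (act t x))
    (hcomm : ∀ (g : G) s x, g • act s x = act s (g • x))
    {d : ℕ} {e : OpenPartialHomeomorph (Fin d → ℝ) L} (he : LieChart L d e)
    {h : ℕ → X → ℝ} (hh : LFamily G d e act h) :
    ∃ A : Set X, MeasurableSet A ∧ (∀ (g : G), ∀ x ∈ A, g • x ∈ A) ∧
      (∀ x, ∃ l, act l x ∈ A) ∧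
      ∃ T : ℕ → X → X, (∀ k, Measurable (T k)) ∧
        ∀ x l, act l x ∈ A → ∃ k, T k x = act l x := by
  refine ⟨sect act e h, ?_, ?_, ?_, ?_⟩
  · -- Borel
    have h1 : sect act e h = ⋃ r : ℕ, ⋃ κ : Fin r → ℕ,
        ((⋂ i, ⋃ q : ℚ, {x | h (κ i) x = q}) ∩
          {x | LinearIndependent ℝ fun i => dif act e h (act 1 x) (κ i)}) ∩
            {x | Rk act e h (r + 1) x}ᶜ := by
      ext x
      simp only [sect, mem_iUnion, mem_inter_iff, mem_iInter, mem_compl_iff, hone]
      constructor
      · rintro ⟨r, κ, h1, h2, h3⟩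
        exact ⟨r, κ, ⟨h1, h2⟩, h3⟩
      · rintro ⟨r, κ, ⟨h1, h2⟩, h3⟩
        exact ⟨r, κ, h1, h2, h3⟩
    rw [h1]
    refine MeasurableSet.iUnion fun r => MeasurableSet.iUnion fun κ => ?_
    refine MeasurableSet.inter (MeasurableSet.inter ?_ ?_) ?_
    · refine MeasurableSet.iInter fun i => MeasurableSet.iUnion fun q => ?_
      exact hh.measurable (κ i) (measurableSet_singleton (q : ℝ))
    · exact measurableSet_linearIndependent _ fun i v =>
        measurable_dif hcont hh.measurable hh.contDiffAt _ _ v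
    · exact (measurableSet_rk hcont hmul he hh.measurable hh.contDiffAt (r + 1)).compl
  · -- invariant
    rintro g x ⟨r, κ, hq, hli, hmax⟩
    choose κ' hκ' using fun i => hh.stable g⁻¹ (κ i)
    have hκ2 : ∀ i y, h (κ' i) (g • y) = h (κ i) y := by
      intro i y
      rw [← hκ' i (g • y), inv_smul_smul]
    refine ⟨r, κ', fun i => ?_, ?_, fun hr => hmax ?_⟩
    · obtain ⟨q, hq⟩ := hq i
      exact ⟨q, by rw [hκ2 i x, hq]⟩
    · convert hli using 2 with i
      exact dif_smul hcomm g (hκ2 i) x
    · exact rk_smul_le hcomm hh.stable g x hr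
  · -- meets every orbit
    intro x
    obtain ⟨r, hr, hr1⟩ : ∃ r, Rk act e h r x ∧ ¬ Rk act e h (r + 1) x := by
      by_contra hcon
      push Not at hcon
      have h1 : ∀ r, Rk act e h r x := by
        intro r
        induction r with
        | zero => exact rk_zero x
        | succ r ih => exact hcon r ih
      exact absurd (rk_le (h1 (d + 1))) (by omega)
    obtain ⟨l₀, κ, hli⟩ := hr
    obtain ⟨U, hU, hchain⟩ := exists_chain act hmul he hh.contDiffAt
    obtain ⟨t, htU, hq, hlit⟩ := exists_rational_values_mem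
      (fun (i : Fin r) t => h (κ i) (act (e t) (act l₀ x))) 0
      (fun i => hh.contDiffAt _ _) hli hU
    obtain ⟨S, hS⟩ := hchain t htU
    refine ⟨e t * l₀, r, κ, ?_, ?_, ?_⟩
    · rw [hmul]
      exact hq
    · rw [hmul]
      apply linearIndependent_of_comp_right _ S
      convert hlit using 2 with i
      exact ((hS (κ i) (act l₀ x)).2).symm
    · rw [rk_act hmul]
      exact hr1
  · -- enumeration
    have : LocallyCompactSpace L := locallyCompactSpace_of_chart he
    obtain ⟨N, hN, hNV⟩ := exists_compact_family L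
    have hfc : ∀ k x, Continuous fun l => h k (act l x) := by
      intro k x
      rw [continuous_iff_continuousAt]
      intro l₀
      have h1 : (1 : L) ∈ e.target := by
        rw [← he.map_zero]
        exact e.map_source he.zero_mem
      have h2 : e.symm 1 = 0 := by
        rw [← he.map_zero]
        exact e.left_inv he.zero_mem
      have h3 : Filter.Tendsto (fun l : L => l * l₀⁻¹) (𝓝 l₀) (𝓝 1) := by
        have h4 : Continuous fun l : L => l * l₀⁻¹ := continuous_id.mul continuous_const
        simpa using h4.tendsto l₀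
      have h5 : Filter.Tendsto (fun l : L => e.symm (l * l₀⁻¹)) (𝓝 l₀) (𝓝 0) := by
        have h6 := e.continuousAt_symm h1
        rw [ContinuousAt, h2] at h6
        exact h6.comp h3
      have h7 := ((hh.contDiffAt k (act l₀ x)).continuousAt.tendsto).comp h5
      have h8 : (fun l => h k (act l x)) =ᶠ[𝓝 l₀]
          ((fun t => h k (act (e t) (act l₀ x))) ∘ fun l : L => e.symm (l * l₀⁻¹)) := by
        filter_upwards [h3.eventually (e.open_target.mem_nhds h1)] with l hl
        simp only [Function.comp_apply]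
        rw [e.right_inv hl, ← hmul, inv_mul_cancel_right]
      have h9 : h k (act (e 0) (act l₀ x)) = h k (act l₀ x) := by
        rw [he.map_zero, hone]
      rw [ContinuousAt]
      rw [h9] at h7
      exact h7.congr' h8.symm
    have hT := fun (idx : Σ r : ℕ, (Fin r → ℕ) × (Fin r → ℚ) × ℕ) =>
      exists_measurable_point_gen act hcont (fun i x l => h (idx.2.1 i) (act l x))
        (fun i l => (hh.measurable _).comp (hcont.comp (Continuous.prodMk_right l)).measurable)
        (fun i x => hfc _ x) (fun i => ((idx.2.2.1 i : ℚ) : ℝ)) (hN idx.2.2.2)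
    choose T hTm hT using hT
    have : Nonempty (Σ r : ℕ, (Fin r → ℕ) × (Fin r → ℚ) × ℕ) := ⟨⟨0, Fin.elim0, Fin.elim0, 0⟩⟩
    obtain ⟨s, hs⟩ := exists_surjective_nat (Σ r : ℕ, (Fin r → ℕ) × (Fin r → ℚ) × ℕ)
    refine ⟨fun k => T (s k), fun k => hTm _, ?_⟩
    rintro x l ⟨r, κ, hq, hli, hmax⟩
    choose q hq using hq
    obtain ⟨U, hU, hchain⟩ := exists_chain act hmul he hh.contDiffAt
    have h1 := eventually_linearIndependent
      (fun (i : Fin r) t => h (κ i) (act (e t) (act l x))) 0 (fun i => hh.contDiffAt _ _) hli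
    have h2 := eventually_fiber_constant (fun j t => h j (act (e t) (act l x)))
      ⟨U, hU, fun t ht j => by
        obtain ⟨S, hS⟩ := hchain t ht
        exact (hS j (act l x)).1⟩ κ hli (by
      filter_upwards [h1, hU] with t ht htU j
      obtain ⟨S, hS⟩ := hchain t htU
      have h3 : LinearIndependent ℝ fun i => dif act e h (act (e t) (act l x)) (κ i) := by
        apply linearIndependent_of_comp_right _ S
        convert ht using 2 with i
        exact ((hS (κ i) (act l x)).2).symm
      have h4 : dif act e h (act (e t) (act l x)) j ∈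
          Submodule.span ℝ (range fun i => dif act e h (act (e t) (act l x)) (κ i)) := by
        by_contra hnot
        apply hmax
        refine ⟨e t, Fin.snoc κ j, ?_⟩
        have h5 : (fun i => dif act e h (act (e t) (act l x)) ((Fin.snoc κ j : Fin (r + 1) → ℕ) i)) =
            Fin.snoc (fun i => dif act e h (act (e t) (act l x)) (κ i))
              (dif act e h (act (e t) (act l x)) j) := by
          funext i
          refine Fin.lastCases ?_ (fun i => ?_) i
          · simp
          · simp
        rw [h5, linearIndependent_finSnoc]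
        exact ⟨h3, hnot⟩
      have h6 := comp_mem_span _ _ S h4
      have h7 : fderiv ℝ (fun s => h j (act (e s) (act l x))) t =
          (dif act e h (act (e t) (act l x)) j).comp S := (hS j (act l x)).2
      have h8 : (fun i => fderiv ℝ (fun s => h (κ i) (act (e s) (act l x))) t) =
          fun i => (dif act e h (act (e t) (act l x)) (κ i)).comp S := by
        funext i
        exact (hS (κ i) (act l x)).2
      rw [h7, h8]
      exact h6)
    have h3 : ∀ᶠ t in 𝓝 (0 : Fin d → ℝ),
        (∀ i, h (κ i) (act (e t) (act l x)) = h (κ i) (act l x)) →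
          act (e t) (act l x) = act l x := by
      filter_upwards [h2] with t ht hκ
      apply hh.separates
      intro j
      have h4 := ht (fun i => by rw [hκ i, he.map_zero, hone]) j
      rw [he.map_zero, hone] at h4
      exact h4
    have h4 := eventually_of_chart he (P := fun m =>
      (∀ i, h (κ i) (act m (act l x)) = h (κ i) (act l x)) → act m (act l x) = act l x) h3 l
    obtain ⟨n, hln, hnV⟩ := hNV l _ h4
    obtain ⟨k, hk⟩ := hs ⟨r, κ, q, n⟩
    refine ⟨k, ?_⟩
    change T (s k) x = act l x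
    rw [hk]
    apply hT ⟨r, κ, q, n⟩ x l hln hq
    intro l' hl' hκ
    have h5 := hnV hl'
    have h6 : act (l' * l⁻¹) (act l x) = act l' x := by
      rw [← hmul, inv_mul_cancel_right]
    have h7 : (∀ i, h (κ i) (act (l' * l⁻¹) (act l x)) = h (κ i) (act l x)) →
        act (l' * l⁻¹) (act l x) = act l x := h5
    rw [h6] at h7
    exact h7 fun i => (hκ i).trans (hq i).symm

end Pool.Agent.H11.VP
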