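import Pool.Agent.H11.VP.Cantor
import Pool.Agent.H11.VP.Descent
import Pool.Agent.H11.VP.LFam
import Pool.Agent.H11.VP.LSect

/-!
Products with a locally Lie group.
-/

namespace Pool.Agent.H11.VP

open Set Topology

/-- Let `G` be a non-archimedean Polish group with TVC and `L` a locally Lie Polish group. Then
`G × L` satisfies TVC. -/
theorem tvc_prod_lie {G : Type} [Group G] [TopologicalSpace G] [IsTopologicalGroup G]
    [PolishSpace G] [NonarchimedeanGroup G] {L : Type} [Group L] [TopologicalSpace L]
    [IsTopologicalGroup L] [PolishSpace L] (hL : LocallyLie L) (h : TVC G) : TVC (G × L) := by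
  obtain ⟨d, e, he⟩ := hL
  intro X _ _ _ _ B hB hinv
  let _ : MeasurableSpace X := borel X
  have hBor : BorelSpace X := ⟨rfl⟩
  let _ : MulAction G X := MulAction.compHom X (MonoidHom.inl G L)
  have hGc : ContinuousSMul G X := ⟨by
    have : (fun p : G × X => p.1 • p.2) = fun p : G × X => ((p.1, 1) : G × L) • p.2 := rfl
    rw [this]
    fun_prop⟩
  let act : L → X → X := fun v x => ((1, v) : G × L) • x
  have hcont : Continuous fun p : L × X => act p.1 p.2 := by
    have h1 : Continuous fun p : L × X => ((1, p.1) : G × L) :=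
      continuous_const.prodMk continuous_fst
    exact h1.smul continuous_snd
  have hone : ∀ x, act 1 x = x := fun x => one_smul (G × L) x
  have hmul : ∀ s t x, act (s * t) x = act s (act t x) := by
    intro s t x
    change ((1, s * t) : G × L) • x = ((1, s) : G × L) • ((1, t) : G × L) • x
    rw [smul_smul, Prod.mk_mul_mk, one_mul]
  have hcomm : ∀ (g : G) s x, g • act s x = act s (g • x) := by
    intro g s x
    change ((g, 1) : G × L) • ((1, s) : G × L) • x = ((1, s) : G × L) • ((g, 1) : G × L) • x
    rw [smul_smul, smul_smul, Prod.mk_mul_mk, Prod.mk_mul_mk, one_mul, one_mul, mul_one, mul_one]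
  obtain ⟨hf, hgood⟩ := exists_lFamily (G := G) act hcont hone hmul hcomm he
  obtain ⟨A, hA, hAinv, hAmeet, T, hT, hTenum⟩ :=
    exists_section_lie act hcont hone hmul hcomm he hgood
  have hBA : @MeasurableSet X (borel X) (A ∩ B) := hA.inter hB
  have hBAinv : ∀ (g : G), ∀ x ∈ A ∩ B, g • x ∈ A ∩ B := fun g x hx =>
    ⟨hAinv g x hx.1, hinv (g, 1) x hx.2⟩
  have hpair : ∀ (g : G) (v : L) (x : X), ((g, v) : G × L) • x = act v (g • x) := by
    intro g v x
    change _ = ((1, v) : G × L) • ((g, 1) : G × L) • x
    rw [smul_smul, Prod.mk_mul_mk, one_mul, mul_one]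
  rcases h X (A ∩ B) hBA hBAinv with hcount | hperf
  · left
    -- the map from `G`-orbits to orbits of the product
    have hsub : MulAction.orbit (G × L) '' B ⊆
        (fun O : Set X => ⋃ y ∈ O, MulAction.orbit (G × L) y) ''
          (MulAction.orbit G '' (A ∩ B)) := by
      rintro _ ⟨x, hx, rfl⟩
      obtain ⟨l, hl⟩ := hAmeet x
      refine ⟨MulAction.orbit G (act l x), ⟨act l x, ⟨hl, hinv _ x hx⟩, rfl⟩, ?_⟩
      apply Subset.antisymm
      · refine iUnion₂_subset fun y hy => ?_
        obtain ⟨g, rfl⟩ := hy
        have : MulAction.orbit (G × L) (g • act l x) = MulAction.orbit (G × L) x := by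
          rw [MulAction.orbit_eq_iff]
          refine ⟨(g, l), ?_⟩
          change ((g, l) : G × L) • x = _
          rw [hpair, hcomm]
        exact this.subset
      · refine subset_iUnion₂_of_subset (act l x) (MulAction.mem_orbit_self _) ?_
        have : MulAction.orbit (G × L) (act l x) = MulAction.orbit (G × L) x := by
          rw [MulAction.orbit_eq_iff]
          exact ⟨(1, l), rfl⟩
        exact this.symm.subset
    exact (hcount.image _).mono hsub
  · right
    obtain ⟨f, hfc, hfi, hfB, hfne⟩ := cantor_of_perfectlyManyOrbits hperf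
    obtain ⟨t, htc, hti, htne⟩ := descent f hfc hfne T hT
    refine perfectlyManyOrbits_of_cantor (f ∘ t) (hfc.comp htc) (hfi.comp hti)
      (fun a => (hfB (t a)).2) ?_
    rintro a b hab ⟨g, v⟩ hgv
    have h1 : act v (g • f (t a)) = f (t b) := by
      rw [← hpair]; exact hgv
    have h2 : g • f (t a) = act v⁻¹ (f (t b)) := by
      rw [← h1, ← hmul, inv_mul_cancel, hone]
    have h3 : act v⁻¹ (f (t b)) ∈ A := by
      rw [← h2]; exact hAinv g _ (hfB (t a)).1
    obtain ⟨k, hk⟩ := hTenum _ _ h3
    exact htne k b a (Ne.symm hab) g (h2.trans hk.symm)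

end Pool.Agent.H11.VP
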