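import Mathlib

/-!
Continuous differentiability of a parameter integral over a compact set.
-/

namespace Pool.Agent.H11.VP

open Set Topology MeasureTheory

/-- The integral over a compact set of a bounded weight times a `C^1` function of a continuous
function of the point and of the parameter is `C^1` in the parameter. -/
theorem contDiffAt_paramIntegral {S : Type} [TopologicalSpace S] [MeasurableSpace S]
    [OpensMeasurableSpace S] {μ : Measure S} {d : ℕ} {K : Set S} (hK : IsCompact K)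
    (hKm : MeasurableSet K) (hKf : μ K < ⊤) {q : S → (Fin d → ℝ)} (hq : ContinuousOn q K)
    {w : S → ℝ} (hw : AEStronglyMeasurable w (μ.restrict K)) (hwb : ∀ s, |w s| ≤ 1)
    {Φ : (Fin d → ℝ) × (Fin d → ℝ) → ℝ} {U : Set ((Fin d → ℝ) × (Fin d → ℝ))} (hU : IsOpen U)
    (hKU : ∀ s ∈ K, (q s, (0 : Fin d → ℝ)) ∈ U) (hΦ : ContDiffOn ℝ 1 Φ U) :
    ContDiffAt ℝ 1 (fun t => ∫ s in K, w s * Φ (q s, t) ∂μ) 0 := by
  have hC : IsCompact (q '' K) := hK.image_of_continuousOn hq
  obtain ⟨u, v, -, hv, hCu, h0v, huv⟩ := generalized_tube_lemma hC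
    (isCompact_singleton (x := (0 : Fin d → ℝ))) hU (by
      rintro ⟨a, b⟩ ⟨⟨s, hs, rfl⟩, hb⟩
      have hb' : b = 0 := hb
      subst hb'
      exact hKU s hs)
  obtain ⟨r, hr, hrv⟩ := Metric.isOpen_iff.1 hv 0 (h0v rfl)
  set T : Set (Fin d → ℝ) := Metric.closedBall 0 (r / 2) with hT
  have hTc : IsCompact T := isCompact_closedBall _ _
  have hTv : T ⊆ v := (Metric.closedBall_subset_ball (by linarith)).trans hrv
  have hT0 : T ∈ 𝓝 (0 : Fin d → ℝ) := Metric.closedBall_mem_nhds _ (by linarith)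
  have hmem : ∀ s ∈ K, ∀ t ∈ T, (q s, t) ∈ U := fun s hs t ht =>
    huv ⟨hCu (mem_image_of_mem q hs), hTv ht⟩
  have hCT : (q '' K) ×ˢ T ⊆ U := by
    rintro ⟨a, b⟩ ⟨⟨s, hs, rfl⟩, hb⟩
    exact hmem s hs b hb
  -- the partial derivative
  let D : (Fin d → ℝ) × (Fin d → ℝ) → ((Fin d → ℝ) →L[ℝ] ℝ) := fun p =>
    (fderiv ℝ Φ p).comp (ContinuousLinearMap.inr ℝ (Fin d → ℝ) (Fin d → ℝ))
  have hDc : ContinuousOn D U :=
    (hΦ.continuousOn_fderiv_of_isOpen hU (by norm_num)).clm_comp continuousOn_const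
  obtain ⟨B, hB⟩ := (hC.prod hTc).exists_bound_of_continuousOn (hDc.mono hCT)
  obtain ⟨B', hB'⟩ := (hC.prod hTc).exists_bound_of_continuousOn (hΦ.continuousOn.mono hCT)
  have hpair : ∀ t : Fin d → ℝ, ContinuousOn (fun s => (q s, t)) K := fun t =>
    hq.prodMk continuousOn_const
  have hΦs : ∀ t ∈ T, ContinuousOn (fun s => Φ (q s, t)) K := fun t ht =>
    hΦ.continuousOn.comp (hpair t) fun s hs => hmem s hs t ht
  have hDs : ∀ t ∈ T, ContinuousOn (fun s => D (q s, t)) K := fun t ht =>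
    hDc.comp (hpair t) fun s hs => hmem s hs t ht
  have hFm : ∀ t ∈ T, AEStronglyMeasurable (fun s => w s * Φ (q s, t)) (μ.restrict K) :=
    fun t ht => hw.mul ((hΦs t ht).aestronglyMeasurable hKm)
  have hDm : ∀ t ∈ T, AEStronglyMeasurable (fun s => w s • D (q s, t)) (μ.restrict K) :=
    fun t ht => hw.smul ((hDs t ht).aestronglyMeasurable hKm)
  have hfin : IsFiniteMeasure (μ.restrict K) := ⟨by simpa using hKf⟩
  have hae : ∀ᵐ s ∂(μ.restrict K), s ∈ K := ae_restrict_mem hKm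
  have hbd : ∀ᵐ s ∂(μ.restrict K), ∀ t ∈ T, ‖w s • D (q s, t)‖ ≤ B := by
    filter_upwards [hae] with s hs t ht
    rw [norm_smul]
    have h1 := hB (q s, t) ⟨mem_image_of_mem q hs, ht⟩
    have h2 : ‖w s‖ ≤ 1 := by simpa [Real.norm_eq_abs] using hwb s
    calc ‖w s‖ * ‖D (q s, t)‖ ≤ 1 * ‖D (q s, t)‖ := by gcongr
      _ ≤ B := by simpa using h1
  have hder : ∀ s ∈ K, ∀ t ∈ T, HasFDerivAt (fun t => w s * Φ (q s, t)) (w s • D (q s, t)) t := by
    intro s hs t ht
    have h1 : HasFDerivAt Φ (fderiv ℝ Φ (q s, t)) (q s, t) :=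
      ((hΦ.contDiffAt (hU.mem_nhds (hmem s hs t ht))).differentiableAt (by norm_num)).hasFDerivAt
    have h2 : HasFDerivAt (fun t : Fin d → ℝ => (q s, t))
        (ContinuousLinearMap.inr ℝ (Fin d → ℝ) (Fin d → ℝ)) t := hasFDerivAt_prodMk_right (q s) t
    exact (h1.comp t h2).const_mul (w s)
  have hopen : Metric.ball (0 : Fin d → ℝ) (r / 2) ∈ 𝓝 (0 : Fin d → ℝ) :=
    Metric.ball_mem_nhds _ (by linarith)
  have hballT : Metric.ball (0 : Fin d → ℝ) (r / 2) ⊆ T := Metric.ball_subset_closedBall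
  rw [contDiffAt_one_iff]
  refine ⟨fun t => ∫ s in K, w s • D (q s, t) ∂μ, Metric.ball 0 (r / 2), hopen, ?_, ?_⟩
  · refine continuousOn_of_dominated (bound := fun _ => B) (fun t ht => hDm t (hballT ht))
      (fun t ht => ?_) (integrable_const B) ?_
    · filter_upwards [hbd] with s hs
      exact hs t (hballT ht)
    · filter_upwards [hae] with s hs
      have h1 : ContinuousOn (fun t : Fin d → ℝ => (q s, t)) (Metric.ball 0 (r / 2)) :=
        (continuous_const.prodMk continuous_id).continuousOn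
      have h2 : ContinuousOn (fun t => D (q s, t)) (Metric.ball 0 (r / 2)) :=
        hDc.comp h1 fun t ht => hmem s hs t (hballT ht)
      exact h2.const_smul (w s)
  · intro t ht
    have hnt : Metric.ball (0 : Fin d → ℝ) (r / 2) ∈ 𝓝 t := Metric.isOpen_ball.mem_nhds ht
    refine hasFDerivAt_integral_of_dominated_of_fderiv_le (bound := fun _ => B)
      (F := fun t s => w s * Φ (q s, t)) (F' := fun t s => w s • D (q s, t))
      hnt ?_ ?_ (hDm t (hballT ht)) ?_ (integrable_const B) ?_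
    · filter_upwards [hnt] with t' ht'
      exact hFm t' (hballT ht')
    · refine Integrable.mono' (integrable_const B') (hFm t (hballT ht)) ?_
      filter_upwards [hae] with s hs
      have h1 := hB' (q s, t) ⟨mem_image_of_mem q hs, hballT ht⟩
      rw [norm_mul]
      have h2 : ‖w s‖ ≤ 1 := by simpa [Real.norm_eq_abs] using hwb s
      calc ‖w s‖ * ‖Φ (q s, t)‖ ≤ 1 * ‖Φ (q s, t)‖ := by gcongr
        _ ≤ B' := by simpa using h1
    · filter_upwards [hbd] with s hs t' ht'
      exact hs t' (hballT ht')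
    · filter_upwards [hae] with s hs t' ht'
      exact hder s hs t' (hballT ht')

end Pool.Agent.H11.VP
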