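import Mathlib

/-!
Local uniqueness modulo a subspace.
-/

namespace Pool.Agent.H11.VP

open Set Topology

/-- Let `F` be invariant under the subspace `H` and differentiable at `l₀`, the kernel of the
derivative being contained in `H`. Then near `l₀` the points with the value `F l₀` lie in
`l₀ + H`. -/
theorem eventually_sub_mem {d r : ℕ} (F : (Fin d → ℝ) → (Fin r → ℝ)) (l₀ : Fin d → ℝ)
    (H : Submodule ℝ (Fin d → ℝ)) (hinv : ∀ l, ∀ w ∈ H, F (l + w) = F l)
    (F' : (Fin d → ℝ) →L[ℝ] (Fin r → ℝ)) (hF : HasFDerivAt F F' l₀)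
    (hker : ∀ v, F' v = 0 → v ∈ H) :
    ∀ᶠ l in 𝓝 l₀, F l = F l₀ → l - l₀ ∈ H := by
  obtain ⟨K, hK⟩ := Submodule.exists_isCompl H
  let f : K →ₗ[ℝ] (Fin r → ℝ) := (F' : (Fin d → ℝ) →ₗ[ℝ] (Fin r → ℝ)).domRestrict K
  have hf : LinearMap.ker f = ⊥ := by
    rw [LinearMap.ker_eq_bot']
    intro v hv
    have h1 : (v : Fin d → ℝ) ∈ H := hker v hv
    have h2 : (v : Fin d → ℝ) ∈ H ⊓ K := ⟨h1, v.2⟩
    rw [hK.inf_eq_bot] at h2
    exact Subtype.ext (by simpa using h2)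
  obtain ⟨c, hc, hanti⟩ := f.exists_antilipschitzWith hf
  have hc' : (0 : ℝ) < c := by exact_mod_cast hc
  let π : (Fin d → ℝ) →ₗ[ℝ] K := Submodule.projectionOnto K H hK.symm
  have hπ : Continuous π := π.continuous_of_finiteDimensional
  have hT : Filter.Tendsto (fun l => l₀ + (π (l - l₀) : Fin d → ℝ)) (𝓝 l₀) (𝓝 l₀) := by
    have hcont : Continuous (fun l => l₀ + (π (l - l₀) : Fin d → ℝ)) := by fun_prop
    have h := hcont.tendsto l₀
    simpa using h
  have hlit := hF.isLittleO.def (c := 1 / (2 * (c : ℝ))) (by positivity)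
  filter_upwards [hT.eventually hlit] with l hl hFl
  have hdec : l - l₀ - (π (l - l₀) : Fin d → ℝ) ∈ H := by
    have h := Submodule.projectionOnto_apply_eq_zero_iff hK.symm (x := l - l₀ - (π (l - l₀) : Fin d → ℝ))
    rw [← h, map_sub, Submodule.projectionOnto_apply_left hK.symm]
    exact sub_self _
  have hval : F (l₀ + (π (l - l₀) : Fin d → ℝ)) = F l₀ := by
    have h := hinv (l₀ + (π (l - l₀) : Fin d → ℝ)) _ hdec
    rw [← h, ← hFl]
    congr 1
    abel
  rw [hval, sub_self, zero_sub, norm_neg, add_sub_cancel_left] at hl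
  have hle := hanti.le_mul_dist (π (l - l₀)) 0
  rw [dist_zero_right, map_zero, dist_zero_right] at hle
  have hfe : f (π (l - l₀)) = F' (π (l - l₀) : Fin d → ℝ) := rfl
  rw [hfe] at hle
  have hn : ‖π (l - l₀)‖ ≤ (1 / 2) * ‖π (l - l₀)‖ := by
    calc ‖π (l - l₀)‖ ≤ c * ‖F' (π (l - l₀) : Fin d → ℝ)‖ := hle
      _ ≤ c * (1 / (2 * (c : ℝ)) * ‖(π (l - l₀) : Fin d → ℝ)‖) := by gcongr
      _ = (1 / 2) * ‖π (l - l₀)‖ := by
        rw [Submodule.coe_norm]
        field_simp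
  have h0 : ‖π (l - l₀)‖ = 0 := by
    have := norm_nonneg (π (l - l₀))
    linarith
  rw [norm_eq_zero] at h0
  rw [h0] at hdec
  simpa using hdec

end Pool.Agent.H11.VP
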