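import Pool.Agent.H11.VP.LOpen

/-!
Rational values near a point with independent differentials.
-/

namespace Pool.Agent.H11.VP

open Set Topology

/-- Functions with independent differentials at a point have, somewhere, simultaneously rational
values and independent differentials. -/
theorem exists_rational_values {d r : ℕ} (f : Fin r → (Fin d → ℝ) → ℝ)
    (hf : ∀ i, ContDiff ℝ 1 (f i)) (l₀ : Fin d → ℝ)
    (hli : LinearIndependent ℝ fun i => fderiv ℝ (f i) l₀) :
    ∃ l, (∀ i, ∃ q : ℚ, f i l = q) ∧ LinearIndependent ℝ fun i => fderiv ℝ (f i) l := by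
  obtain ⟨l, -, h⟩ := exists_rational_values_mem f l₀ (fun i => (hf i).contDiffAt) hli
    Filter.univ_mem
  exact ⟨l, h⟩

end Pool.Agent.H11.VP
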