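import Pool.Agent.H11.VP.Fam
import Pool.Agent.H11.VP.SLoc
import Pool.Agent.H11.VP.SOpen
import Pool.Agent.H11.VP.SMeas
import Pool.Agent.H11.VP.SBor

/-!
The Borel set meeting every orbit in countably many classes, and its Borel enumeration.
-/

namespace Pool.Agent.H11.VP

open Set Topology

/-- From a good family: a Borel invariant set meeting all orbits of the vector group and countably
many Borel maps enumerating the points of the orbit in it. -/
theorem exists_section {G X : Type} [Group G] [TopologicalSpace X] [PolishSpace X]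
    [MeasurableSpace X] [BorelSpace X] [MulAction G X] (d : ℕ) (act : (Fin d → ℝ) → X → X)
    (hcont : Continuous fun p : (Fin d → ℝ) × X => act p.1 p.2) (hzero : ∀ x, act 0 x = x)
    (hadd : ∀ s t x, act (s + t) x = act s (act t x))
    (hcomm : ∀ (g : G) s x, g • act s x = act s (g • x))
    {h : ℕ → X → ℝ} (hh : GoodFamily G d act h) :
    ∃ A : Set X, MeasurableSet A ∧ (∀ (g : G), ∀ x ∈ A, g • x ∈ A) ∧
      (∀ x, ∃ l, act l x ∈ A) ∧
      ∃ T : ℕ → X → X, (∀ k, Measurable (T k)) ∧
        ∀ x l, act l x ∈ A → ∃ k, T k x = act l x := by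
  sorry

end Pool.Agent.H11.VP
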