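import Pool.Agent.H11.VP.Cantor
import Pool.Agent.H11.VP.Descent
import Pool.Agent.H11.VP.Sect

/-!
Products with a vector group.
-/

namespace Pool.Agent.H11.VP

open Set Topology

/-- Let `G` be a non-archimedean Polish group with TVC. Then `G × ℝ^d` satisfies TVC. -/
theorem tvc_prod_vec {G : Type} [Group G] [TopologicalSpace G] [IsTopologicalGroup G]
    [PolishSpace G] [NonarchimedeanGroup G] (d : ℕ) (h : TVC G) :
    TVC (G × Multiplicative (Fin d → ℝ)) := by
  intro X _ _ _ _ B hB hinv
  letI : MeasurableSpace X := borel X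
  have hBor : BorelSpace X := ⟨rfl⟩
  letI : MulAction G X := MulAction.compHom X (MonoidHom.inl G (Multiplicative (Fin d → ℝ)))
  have hG : ∀ (g : G) (x : X), g • x = ((g, 1) : G × Multiplicative (Fin d → ℝ)) • x :=
    fun g x => rfl
  have hGc : ContinuousSMul G X := ⟨by
    have : (fun p : G × X => p.1 • p.2) =
        fun p : G × X => ((p.1, 1) : G × Multiplicative (Fin d → ℝ)) • p.2 := rfl
    rw [this]
    fun_prop⟩
  let act : (Fin d → ℝ) → X → X := fun v x =>
    ((1, Multiplicative.ofAdd v) : G × Multiplicative (Fin d → ℝ)) • x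
  have hcont : Continuous fun p : (Fin d → ℝ) × X => act p.1 p.2 := by
    have h1 : Continuous fun p : (Fin d → ℝ) × X =>
        ((1, Multiplicative.ofAdd p.1) : G × Multiplicative (Fin d → ℝ)) :=
      continuous_const.prodMk (continuous_ofAdd.comp continuous_fst)
    exact h1.smul continuous_snd
  have hzero : ∀ x, act 0 x = x := by
    intro x
    change ((1, Multiplicative.ofAdd 0) : G × Multiplicative (Fin d → ℝ)) • x = x
    rw [ofAdd_zero]
    exact one_smul _ x
  have hadd : ∀ s t x, act (s + t) x = act s (act t x) := by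
    intro s t x
    change ((1, Multiplicative.ofAdd (s + t)) : G × Multiplicative (Fin d → ℝ)) • x =
      ((1, Multiplicative.ofAdd s) : G × Multiplicative (Fin d → ℝ)) •
        ((1, Multiplicative.ofAdd t) : G × Multiplicative (Fin d → ℝ)) • x
    rw [smul_smul, Prod.mk_mul_mk, one_mul, ofAdd_add]
  have hcomm : ∀ (g : G) s x, g • act s x = act s (g • x) := by
    intro g s x
    change ((g, 1) : G × Multiplicative (Fin d → ℝ)) •
      ((1, Multiplicative.ofAdd s) : G × Multiplicative (Fin d → ℝ)) • x =
      ((1, Multiplicative.ofAdd s) : G × Multiplicative (Fin d → ℝ)) •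
        ((g, 1) : G × Multiplicative (Fin d → ℝ)) • x
    rw [smul_smul, smul_smul, Prod.mk_mul_mk, Prod.mk_mul_mk, one_mul, one_mul, mul_one, mul_one]
  obtain ⟨hf, hgood⟩ := exists_goodFamily (G := G) d act hcont hzero hadd hcomm
  obtain ⟨A, hA, hAinv, hAmeet, T, hT, hTenum⟩ := exists_section d act hcont hzero hadd hcomm hgood
  have hBA : @MeasurableSet X (borel X) (A ∩ B) := hA.inter hB
  have hBAinv : ∀ (g : G), ∀ x ∈ A ∩ B, g • x ∈ A ∩ B := fun g x hx =>
    ⟨hAinv g x hx.1, hinv (g, 1) x hx.2⟩
  have hpair : ∀ (g : G) (v : Fin d → ℝ) (x : X),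
      ((g, Multiplicative.ofAdd v) : G × Multiplicative (Fin d → ℝ)) • x = act v (g • x) := by
    intro g v x
    change _ = ((1, Multiplicative.ofAdd v) : G × Multiplicative (Fin d → ℝ)) •
        ((g, 1) : G × Multiplicative (Fin d → ℝ)) • x
    rw [smul_smul, Prod.mk_mul_mk, one_mul, mul_one]
  rcases h X (A ∩ B) hBA hBAinv with hcount | hperf
  · left
    -- the map from `G`-orbits to orbits of the product
    have hsub : MulAction.orbit (G × Multiplicative (Fin d → ℝ)) '' B ⊆
        (fun O : Set X => ⋃ y ∈ O, MulAction.orbit (G × Multiplicative (Fin d → ℝ)) y) ''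
          (MulAction.orbit G '' (A ∩ B)) := by
      rintro _ ⟨x, hx, rfl⟩
      obtain ⟨l, hl⟩ := hAmeet x
      refine ⟨MulAction.orbit G (act l x), ⟨act l x, ⟨hl, hinv _ x hx⟩, rfl⟩, ?_⟩
      apply Subset.antisymm
      · refine iUnion₂_subset fun y hy => ?_
        obtain ⟨g, rfl⟩ := hy
        have : MulAction.orbit (G × Multiplicative (Fin d → ℝ)) (g • act l x) =
            MulAction.orbit (G × Multiplicative (Fin d → ℝ)) x := by
          rw [MulAction.orbit_eq_iff]
          refine ⟨(g, Multiplicative.ofAdd l), ?_⟩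
          change ((g, Multiplicative.ofAdd l) : G × Multiplicative (Fin d → ℝ)) • x = _
          rw [hpair, hcomm]
        exact this.subset
      · refine subset_iUnion₂_of_subset (act l x) (MulAction.mem_orbit_self _) ?_
        have : MulAction.orbit (G × Multiplicative (Fin d → ℝ)) (act l x) =
            MulAction.orbit (G × Multiplicative (Fin d → ℝ)) x := by
          rw [MulAction.orbit_eq_iff]
          exact ⟨(1, Multiplicative.ofAdd l), rfl⟩
        exact this.symm.subset
    exact (hcount.image _).mono hsub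
  · right
    obtain ⟨f, hfc, hfi, hfB, hfne⟩ := cantor_of_perfectlyManyOrbits hperf
    obtain ⟨t, htc, hti, htne⟩ := descent f hfc hfne T hT
    refine perfectlyManyOrbits_of_cantor (f ∘ t) (hfc.comp htc) (hfi.comp hti)
      (fun a => (hfB (t a)).2) ?_
    rintro a b hab ⟨g, v⟩ hgv
    -- `act v (g • f (t a)) = f (t b)`
    have h1 : act (Multiplicative.toAdd v) (g • f (t a)) = f (t b) := by
      rw [← hpair]; exact hgv
    have h2 : g • f (t a) = act (-(Multiplicative.toAdd v)) (f (t b)) := by
      rw [← h1, ← hadd, neg_add_cancel, hzero]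
    have h3 : act (-(Multiplicative.toAdd v)) (f (t b)) ∈ A := by
      rw [← h2]; exact hAinv g _ (hfB (t a)).1
    obtain ⟨k, hk⟩ := hTenum _ _ h3
    exact htne k b a (Ne.symm hab) g (h2.trans hk.symm)

end Pool.Agent.H11.VP
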