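import Pool.Agent.H11.VP.OpenSub
import Pool.Agent.H11.VP.CompactKer
import Pool.Agent.H11.VP.Vec

/-!
The theorem.
-/

namespace Pool.Agent.H11.VP

open Set Topology

theorem main (G : Type) [Group G] [TopologicalSpace G] [IsTopologicalGroup G] [PolishSpace G]
    [NonarchimedeanGroup G] (L : Type) [Group L] [TopologicalSpace L] [IsTopologicalGroup L]
    [PolishSpace L] (hL : CompactByVector L) (h : TVC G) : TVC (G × L) := by
  obtain ⟨M, d, p, hM, hpc, hpo, hps, hpk⟩ := hL
  let M' : Subgroup (G × L) := Subgroup.comap (MonoidHom.snd G L) M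
  have hmem : ∀ x : G × L, x ∈ M' ↔ x.2 ∈ M := fun x => Iff.rfl
  have hM' : IsOpen (M' : Set (G × L)) := hM.preimage continuous_snd
  have hM'c : IsClosed (M' : Set (G × L)) := M'.isClosed_of_isOpen hM'
  have hM'P : PolishSpace M' := hM'c.polishSpace
  have hRP : PolishSpace (Multiplicative (Fin d → ℝ)) :=
    inferInstanceAs (PolishSpace (Fin d → ℝ))
  let e : M' ≃ₜ G × M :=
    { toFun := fun x => (x.1.1, ⟨x.1.2, x.2⟩)
      invFun := fun y => ⟨(y.1, y.2.1), y.2.2⟩
      left_inv := fun x => rfl
      right_inv := fun y => rfl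
      continuous_toFun := (continuous_fst.comp continuous_subtype_val).prodMk
        ((continuous_snd.comp continuous_subtype_val).subtype_mk _)
      continuous_invFun := (continuous_fst.prodMk
        (continuous_subtype_val.comp continuous_snd)).subtype_mk _ }
  let q : M' →* G × Multiplicative (Fin d → ℝ) :=
    { toFun := fun x => (x.1.1, p ⟨x.1.2, x.2⟩)
      map_one' := by
        refine Prod.ext rfl ?_
        exact p.map_one
      map_mul' := fun x y => by
        refine Prod.ext rfl ?_
        exact p.map_mul ⟨x.1.2, x.2⟩ ⟨y.1.2, y.2⟩ }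
  have hq : ⇑q = Prod.map id p ∘ e := rfl
  have hqc : Continuous q := by
    rw [hq]; exact (continuous_id.prodMap hpc).comp e.continuous
  have hqo : IsOpenMap q := by
    rw [hq]; exact (IsOpenMap.id.prodMap hpo).comp e.isOpenMap
  have hqs : Function.Surjective q := by
    rw [hq]; exact (Function.surjective_id.prodMap hps).comp e.surjective
  have hqk : IsCompact (q.ker : Set M') := by
    have hker : (q.ker : Set M') = (fun m : M => e.symm (1, m)) '' (p.ker : Set M) := by
      ext x
      simp only [SetLike.mem_coe, mem_image, MonoidHom.mem_ker]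
      constructor
      · intro hx
        have h1 : x.1.1 = 1 := congrArg Prod.fst hx
        have h2 : p ⟨x.1.2, x.2⟩ = 1 := congrArg Prod.snd hx
        refine ⟨⟨x.1.2, x.2⟩, h2, ?_⟩
        apply Subtype.ext
        exact Prod.ext h1.symm rfl
      · rintro ⟨m, hm, rfl⟩
        exact Prod.ext rfl hm
    rw [hker]
    exact hpk.image (e.symm.continuous.comp (continuous_const.prodMk continuous_id))
  exact tvc_of_open_subgroup M' hM' (tvc_of_compact_ker q hqc hqo hqs hqk (tvc_prod_vec d h))

end Pool.Agent.H11.VP
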