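import Mathlib

/-!
A form of Mycielski's theorem: a Cantor set avoiding countably many closed relations.
-/

namespace Pool.Agent.H11.VP

open Set Topology

/-- Finitely many nonempty open sets contain pairwise unrelated points. -/
theorem exists_finite_avoiding {K : Type} [TopologicalSpace K] [PolishSpace K]
    {ι : Type} [Finite ι] (N : Set (K × K)) (hcl : IsClosed N)
    (hN : ∀ (x : K) (V : Set K), IsOpen V → V.Nonempty → ∃ y ∈ V, (x, y) ∉ N)
    (V : ι → Set K) (hV : ∀ s, IsOpen (V s)) (hne : ∀ s, (V s).Nonempty) :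
    ∃ p : ι → K, (∀ s, p s ∈ V s) ∧ ∀ s t, s ≠ t → (p s, p t) ∉ N := by
  classical
  have hopen : ∀ q : {q : ι × ι // q.1 ≠ q.2},
      IsOpen {p : ι → K | (p q.1.1, p q.1.2) ∉ N} := by
    intro q
    have hc : Continuous fun p : ι → K => (p q.1.1, p q.1.2) :=
      (continuous_apply _).prodMk (continuous_apply _)
    exact (hcl.preimage hc).isOpen_compl
  have hdense : ∀ q : {q : ι × ι // q.1 ≠ q.2},
      Dense {p : ι → K | (p q.1.1, p q.1.2) ∉ N} := by
    intro q
    rw [dense_iff_inter_open]
    intro U hU hUne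
    obtain ⟨p, hp⟩ := hUne
    obtain ⟨I, u, hu, huU⟩ := isOpen_pi_iff.1 hU p hp
    by_cases hq : q.1.2 ∈ I
    · obtain ⟨y, hy, hyN⟩ := hN (p q.1.1) (u q.1.2) (hu _ hq).1 ⟨_, (hu _ hq).2⟩
      refine ⟨Function.update p q.1.2 y, huU ?_, ?_⟩
      · intro r hr
        by_cases h : r = q.1.2
        · subst h
          simpa using hy
        · simpa [Function.update_of_ne h] using (hu r hr).2
      · simpa [Function.update_of_ne q.2] using hyN
    · obtain ⟨y, -, hyN⟩ := hN (p q.1.1) univ isOpen_univ ⟨p q.1.1, trivial⟩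
      refine ⟨Function.update p q.1.2 y, huU ?_, ?_⟩
      · intro r hr
        have h : r ≠ q.1.2 := fun h => hq (h ▸ hr)
        simpa [Function.update_of_ne h] using (hu r hr).2
      · simpa [Function.update_of_ne q.2] using hyN
  have hd := dense_iInter_of_isOpen hopen hdense
  obtain ⟨p, hpU, hp⟩ := hd.inter_open_nonempty (pi univ V)
    (isOpen_set_pi finite_univ fun s _ => hV s) (univ_pi_nonempty_iff.2 hne)
  refine ⟨p, fun s => hpU s trivial, fun s t hst => ?_⟩
  exact mem_iInter.1 hp ⟨(s, t), hst⟩

/-- The tube lemma. -/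
theorem isOpen_forall_compact {X Y : Type} [TopologicalSpace X] [TopologicalSpace Y] {S : Set Y}
    (hS : IsCompact S) {U : Set (X × Y)} (hU : IsOpen U) :
    IsOpen {x : X | ∀ y ∈ S, (x, y) ∈ U} := by
  rw [isOpen_iff_eventually]
  intro x hx
  apply hS.eventually_forall_of_forall_eventually
  intro y hy
  exact hU.mem_nhds (hx y hy)

/-- Points of the Cantor space agreeing on a long initial segment have close values. -/
theorem exists_modulus {K : Type} [MetricSpace K] (f : C(ℕ → Bool, K)) {ε : ℝ} (hε : 0 < ε) :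
    ∃ M : ℕ, ∀ a b : ℕ → Bool, (∀ i < M, a i = b i) → dist (f a) (f b) < ε := by
  by_contra hcon
  push_neg at hcon
  choose a b hab hd using hcon
  obtain ⟨a', -, φ, hφ, hlim⟩ := isCompact_univ.tendsto_subseq (x := a) fun _ => mem_univ _
  have hlimb : Filter.Tendsto (b ∘ φ) Filter.atTop (𝓝 a') := by
    rw [tendsto_pi_nhds] at hlim ⊢
    intro i
    have h1 := hlim i
    refine h1.congr' ?_
    filter_upwards [Filter.eventually_gt_atTop i] with n hn
    exact hab (φ n) i (lt_of_lt_of_le hn (hφ.id_le n))
  have h2 : Filter.Tendsto (fun n => dist (f (a (φ n))) (f (b (φ n)))) Filter.atTop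
      (𝓝 (dist (f a') (f a'))) :=
    ((f.continuous.tendsto _).comp hlim).dist ((f.continuous.tendsto _).comp hlimb)
  rw [dist_self] at h2
  have h3 := h2.eventually (gt_mem_nhds hε)
  obtain ⟨n, hn⟩ := h3.exists
  exact absurd hn (not_lt.2 (hd (φ n)))

/-- Let `K` be a nonempty Polish space and `N k` closed subsets of `K × K` such that for every
point `x` and nonempty open `V` some `y` in `V` is not related to `x`. Then there is a continuous
map from the Cantor space into `K` whose values at different points are not related. -/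
theorem exists_avoiding {K : Type} [TopologicalSpace K] [PolishSpace K] [Nonempty K]
    (N : ℕ → Set (K × K)) (hcl : ∀ k, IsClosed (N k))
    (hN : ∀ k (x : K) (V : Set K), IsOpen V → V.Nonempty → ∃ y ∈ V, (x, y) ∉ N k) :
    ∃ f : (ℕ → Bool) → K, Continuous f ∧ ∀ k a b, a ≠ b → (f a, f b) ∉ N k := by
  classical
  let _ := TopologicalSpace.upgradeIsCompletelyMetrizable K
  let D : ℕ × ℕ → Set C(ℕ → Bool, K) := fun q =>
    {f | ∀ a b : ℕ → Bool, a q.2 ≠ b q.2 → (f a, f b) ∉ N q.1}
  have hopen : ∀ q, IsOpen (D q) := by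
    intro q
    have hS : IsCompact {p : (ℕ → Bool) × (ℕ → Bool) | p.1 q.2 ≠ p.2 q.2} := by
      apply IsClosed.isCompact
      have h1 : Continuous fun p : (ℕ → Bool) × (ℕ → Bool) => (p.1 q.2, p.2 q.2) :=
        ((continuous_apply _).comp continuous_fst).prodMk ((continuous_apply _).comp continuous_snd)
      exact (isClosed_discrete {p : Bool × Bool | p.1 ≠ p.2}).preimage h1
    have h2 : Continuous fun z : C(ℕ → Bool, K) × ((ℕ → Bool) × (ℕ → Bool)) =>
        (z.1 z.2.1, z.1 z.2.2) := by fun_prop
    have h3 := isOpen_forall_compact hS ((hcl q.1).preimage h2).isOpen_compl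
    convert h3 using 1
    ext f
    constructor
    · intro hf p hp
      exact hf p.1 p.2 hp
    · intro hf a b hab
      exact hf (a, b) hab
  have hdense : ∀ q, Dense (D q) := by
    rintro ⟨k, n⟩
    rw [Metric.dense_iff]
    intro f ε hε
    obtain ⟨M, hM⟩ := exists_modulus f (show 0 < ε / 4 by positivity)
    -- extend finite sequences by `false`
    let L : ℕ := max M (n + 1)
    let ext : (Fin L → Bool) → (ℕ → Bool) := fun s i => if h : i < L then s ⟨i, h⟩ else false
    obtain ⟨p, hpV, hpN⟩ := exists_finite_avoiding (N k) (hcl k) (hN k)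
      (fun s : Fin L → Bool => Metric.ball (f (ext s)) (ε / 4)) (fun _ => Metric.isOpen_ball)
      (fun s => ⟨f (ext s), Metric.mem_ball_self (by positivity)⟩)
    let r : (ℕ → Bool) → (Fin L → Bool) := fun a i => a i
    have hr : Continuous r := by fun_prop
    let g : C(ℕ → Bool, K) := ⟨fun a => p (r a), continuous_of_discreteTopology.comp hr⟩
    refine ⟨g, ?_, ?_⟩
    · rw [Metric.mem_ball]
      refine lt_of_le_of_lt ((ContinuousMap.dist_le (show (0:ℝ) ≤ ε / 2 by positivity)).2 ?_)
        (by linarith)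
      intro a
      have h1 : dist (g a) (f (ext (r a))) < ε / 4 := hpV (r a)
      have h2 : dist (f (ext (r a))) (f a) < ε / 4 := by
        apply hM
        intro i hi
        have : i < L := lt_of_lt_of_le hi (le_max_left _ _)
        simp [ext, r, this]
      have h3 := dist_triangle (g a) (f (ext (r a))) (f a)
      linarith
    · intro a b hab
      apply hpN
      intro h
      apply hab
      have hn : n < L := lt_of_lt_of_le (Nat.lt_succ_self n) (le_max_right _ _)
      exact congrFun h ⟨n, hn⟩
  have hne : Nonempty C(ℕ → Bool, K) := ⟨ContinuousMap.const _ (Classical.arbitrary K)⟩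
  have hd := dense_iInter_of_isOpen hopen hdense
  obtain ⟨f, hf⟩ := hd.nonempty
  refine ⟨f, f.continuous, fun k a b hab => ?_⟩
  obtain ⟨n, hn⟩ := Function.ne_iff.1 hab
  exact mem_iInter.1 hf (k, n) a b hn

end Pool.Agent.H11.VP
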