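import Pool.Agent.H11.VP.MycAbs

/-!
Thinning a Cantor set along countably many Borel functions.
-/

namespace Pool.Agent.H11.VP

open Set Topology

/-- The Cantor space is Polish. -/
theorem polishSpace_cantor : PolishSpace (ℕ → Bool) := { }

/-- A nonempty open subset of a perfect set has two points. -/
theorem exists_ne_of_perfect {X : Type} [TopologicalSpace X] [T1Space X] {D : Set X}
    (hD : Perfect D) (V : Set D) (hV : IsOpen V) (hne : V.Nonempty) (z : D) : ∃ y ∈ V, y ≠ z := by
  obtain ⟨x, hx⟩ := hne
  by_cases hxz : x = z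
  · subst hxz
    obtain ⟨U, hU, rfl⟩ := isOpen_induced_iff.1 hV
    have hacc := preperfect_iff_nhds.1 hD.acc x.1 x.2 U (hU.mem_nhds hx)
    obtain ⟨y, hy, hyx⟩ := hacc
    exact ⟨⟨y, hy.2⟩, hy.1, fun h => hyx (congrArg Subtype.val h)⟩
  · exact ⟨x, hx, hxz⟩

/-- The case of continuous functions. -/
theorem exists_thin_aux {K : Type} [TopologicalSpace K] [PolishSpace K]
    (hun : ¬ (univ : Set K).Countable) {Y : Type} [TopologicalSpace Y] [T2Space Y]
    (j : K → Y) (hj : Continuous j) (hinj : Function.Injective j)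
    (F : ℕ → K → Y) (hF : ∀ k, Continuous (F k)) :
    ∃ f : (ℕ → Bool) → K, Continuous f ∧ Function.Injective f ∧
      ∀ k a b, a ≠ b → F k (f a) ≠ j (f b) := by
  obtain ⟨D, hD, hDne, -⟩ := exists_perfect_nonempty_of_isClosed_of_not_countable isClosed_univ hun
  have : PolishSpace D := hD.closed.polishSpace
  have : Nonempty D := hDne.to_subtype
  let N : ℕ → Set (D × D) := fun k =>
    Nat.casesOn k {p | p.1 = p.2} fun k => {p | F k p.1.1 = j p.2.1}
  have hcl : ∀ k, IsClosed (N k) := by
    intro k
    cases k with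
    | zero => exact isClosed_eq continuous_fst continuous_snd
    | succ k =>
      exact isClosed_eq ((hF k).comp (continuous_subtype_val.comp continuous_fst))
        (hj.comp (continuous_subtype_val.comp continuous_snd))
  have hN : ∀ k (x : D) (V : Set D), IsOpen V → V.Nonempty → ∃ y ∈ V, (x, y) ∉ N k := by
    intro k x V hV hne
    cases k with
    | zero =>
      obtain ⟨y, hy, hyx⟩ := exists_ne_of_perfect hD V hV hne x
      exact ⟨y, hy, fun h => hyx h.symm⟩
    | succ k =>
      by_cases hex : ∃ z : D, F k x.1 = j z.1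
      · obtain ⟨z, hz⟩ := hex
        obtain ⟨y, hy, hyz⟩ := exists_ne_of_perfect hD V hV hne z
        refine ⟨y, hy, fun h => hyz ?_⟩
        apply Subtype.ext
        apply hinj
        rw [← hz]
        exact h.symm
      · obtain ⟨y, hy⟩ := hne
        exact ⟨y, hy, fun h => hex ⟨y, h⟩⟩
  obtain ⟨f, hf, hfN⟩ := exists_avoiding N hcl hN
  refine ⟨fun a => (f a).1, continuous_subtype_val.comp hf, ?_, ?_⟩
  · intro a b hab
    by_contra hne
    exact hfN 0 a b hne (Subtype.ext hab)
  · intro k a b hab
    exact hfN (k + 1) a b hab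

/-- The Cantor space is uncountable. -/
theorem not_countable_cantor : ¬ (univ : Set (ℕ → Bool)).Countable := by
  have h3 : Cardinal.mk (ℕ → Bool) = Cardinal.continuum := by simp
  intro h
  have h2 := Cardinal.mk_le_aleph0_iff.2 (countable_univ_iff.1 h)
  rw [h3] at h2
  exact absurd Cardinal.aleph0_lt_continuum (not_lt.2 h2)

/-- Components of a continuous map are continuous. -/
theorem continuous_component {A : Type} [TopologicalSpace A] (F : ℕ → A → (ℕ → Bool))
    (h : Continuous fun x k => F k x) (k : ℕ) : Continuous (F k) :=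
  (continuous_apply k).comp h

/-- For countably many Borel functions on the Cantor space there is a copy of the Cantor space in it
none of whose points is mapped to a different one. -/
theorem exists_thin (F : ℕ → (ℕ → Bool) → (ℕ → Bool)) (hF : ∀ k, Measurable (F k)) :
    ∃ t : (ℕ → Bool) → (ℕ → Bool), Continuous t ∧ Function.Injective t ∧
      ∀ k a b, a ≠ b → F k (t a) ≠ t b := by
  have := polishSpace_cantor
  have hG : Measurable fun (x : ℕ → Bool) (k : ℕ) => F k x := measurable_pi_iff.2 hF
  obtain ⟨t', ht', hcont, hpol⟩ := hG.exists_continuous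
  have hFc : ∀ k, @Continuous (ℕ → Bool) (ℕ → Bool) t' Pi.topologicalSpace (F k) := fun k =>
    @continuous_component (ℕ → Bool) t' F hcont k
  have hid : @Continuous (ℕ → Bool) (ℕ → Bool) t' Pi.topologicalSpace id :=
    continuous_id_iff_le.2 ht'
  obtain ⟨f, hf, hfi, hfF⟩ := @exists_thin_aux (ℕ → Bool) t' hpol not_countable_cantor (ℕ → Bool)
    Pi.topologicalSpace Pi.t2Space id hid Function.injective_id F hFc
  refine ⟨f, ?_, hfi, hfF⟩
  exact @Continuous.comp (ℕ → Bool) (ℕ → Bool) (ℕ → Bool) Pi.topologicalSpace t'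
    Pi.topologicalSpace f id hid hf

end Pool.Agent.H11.VP
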