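import Pool.Agent.H11.VP.Cantor
import Pool.Agent.H11.VP.Descent

/-!
From an open subgroup to the group.
-/

namespace Pool.Agent.H11.VP

open Set Topology

/-- If an open subgroup of a Polish group satisfies TVC, so does the group. -/
theorem tvc_of_open_subgroup {G : Type} [Group G] [TopologicalSpace G] [IsTopologicalGroup G]
    [PolishSpace G] (H : Subgroup G) (hH : IsOpen (H : Set G)) (h : TVC H) : TVC G := by
  classical
  intro X _ _ _ _ B hB hinv
  have hHc : IsClosed (H : Set G) := H.isClosed_of_isOpen hH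
  have hHP : PolishSpace H := hHc.polishSpace
  have hdisc : DiscreteTopology (G ⧸ H) := QuotientGroup.discreteTopology hH
  have hcountQ : Countable (G ⧸ H) := by
    have : TopologicalSpace.SeparableSpace (G ⧸ H) := inferInstance
    exact TopologicalSpace.separableSpace_iff_countable.1 this
  have : Nonempty (G ⧸ H) := ⟨((1 : G) : G ⧸ H)⟩
  obtain ⟨s, hs⟩ := exists_surjective_nat (G ⧸ H)
  let r : ℕ → G := fun k => (s k).out
  have hr : ∀ g : G, ∃ k, ∃ m : H, g = (m : G) * (r k)⁻¹ := by
    intro g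
    obtain ⟨k, hk⟩ := hs ((g⁻¹ : G) : G ⧸ H)
    refine ⟨k, ?_⟩
    have h1 : ((r k : G) : G ⧸ H) = ((g⁻¹ : G) : G ⧸ H) := by
      rw [← hk]; exact Quotient.out_eq _
    have h2 : (r k)⁻¹ * g⁻¹ ∈ H := QuotientGroup.eq.1 h1
    have h3 : g * r k ∈ H := by
      have := H.inv_mem h2
      rwa [mul_inv_rev, inv_inv, inv_inv] at this
    exact ⟨⟨g * r k, h3⟩, by simp⟩
  have hHinv : ∀ (m : H), ∀ x ∈ B, m • x ∈ B := fun m x hx => hinv (m : G) x hx
  rcases h X B hB hHinv with hcount | hperf
  · left
    have hsub : MulAction.orbit G '' B ⊆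
        (fun O : Set X => ⋃ y ∈ O, MulAction.orbit G y) '' (MulAction.orbit H '' B) := by
      rintro _ ⟨x, hx, rfl⟩
      refine ⟨MulAction.orbit H x, ⟨x, hx, rfl⟩, ?_⟩
      apply Subset.antisymm
      · refine iUnion₂_subset fun y hy => ?_
        obtain ⟨g, rfl⟩ := hy
        have : MulAction.orbit G (g • x) = MulAction.orbit G x := by
          rw [MulAction.orbit_eq_iff]
          exact ⟨(g : G), rfl⟩
        exact this.subset
      · exact subset_iUnion₂_of_subset x (MulAction.mem_orbit_self _) subset_rfl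
    exact (hcount.image _).mono hsub
  · right
    let _ : MeasurableSpace X := borel X
    have hBor : BorelSpace X := ⟨rfl⟩
    obtain ⟨f, hfc, hfi, hfB, hfne⟩ := cantor_of_perfectlyManyOrbits hperf
    obtain ⟨t, htc, hti, htne⟩ := descent (H := H) f hfc hfne (fun k x => (r k)⁻¹ • x)
      (fun k => (continuous_const_smul (r k)⁻¹).measurable)
    refine perfectlyManyOrbits_of_cantor (f ∘ t) (hfc.comp htc) (hfi.comp hti)
      (fun a => hfB (t a)) ?_
    rintro a b hab g hgab
    obtain ⟨k, m, hm⟩ := hr g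
    refine htne k a b hab m⁻¹ ?_
    have h1 : f (t b) = (m : G) • (r k)⁻¹ • f (t a) := by
      rw [smul_smul, ← hm]; exact hgab.symm
    rw [h1]
    exact inv_smul_smul m _

end Pool.Agent.H11.VP
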